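import Pool.Agent.K1H70.KR.Stm

set_option autoImplicit false

/-! # Determinants of paths in framed quivers: interface

Owner helper70.  A quiver with the vertices `I`, the arrows `b : α` from `s b` to `t b`, of the weights
`ω b`, and vectors `v_l`, `l : ρ`, at the vertices `ν l`, with numbers `d l`.  The space at the vertex
`i` has the basis `{y : E // vt y = i}`.  `TQ` is the set of the triples (path `w` from `ν l` to `i`, `l`, `i`)
with the weight of `w` less than `d l`; `e : TQ ≃ E` is compatible with the vertices.  `dq i` is the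
determinant of the vectors `A_w v_l`, for the triples with the end `i`, and `FQ = ∏ i, dq i ^ a i`. -/

namespace Pool.Agent.K1H70.KQ

open MvPolynomial Pool.Agent.K1H70.KR

/-- a quiver with the vertices `I`, the arrows `α` and framing vectors `ρ` -/
structure Qv (I α ρ : Type) where
  s : α → I
  t : α → I
  ν : ρ → I

/-- all matrix entries and coordinates -/
abbrev U (α ρ E : Type) : Type := E × ((α × E) ⊕ ρ)

section data

variable {I α ρ E : Type}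

/-- the entries which occur: `A_b` maps the space at `s b` to the space at `t b` -/
def ok (Q : Qv I α ρ) (vt : E → I) : U α ρ E → Prop
  | (a, Sum.inl (b, c)) => vt a = Q.t b ∧ vt c = Q.s b
  | (a, Sum.inr l) => vt a = Q.ν l

instance decok [DecidableEq I] (Q : Qv I α ρ) (vt : E → I) : DecidablePred (ok Q vt)
  | (a, Sum.inl (b, c)) => inferInstanceAs (Decidable (vt a = Q.t b ∧ vt c = Q.s b))
  | (a, Sum.inr l) => inferInstanceAs (Decidable (vt a = Q.ν l))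

/-- the variables -/
abbrev VQ (Q : Qv I α ρ) (vt : E → I) : Type := {u : U α ρ E // ok Q vt u}

/-- `w` is a path from `i` to `j`; the arrow at the head of the list is the last one -/
def IsP (Q : Qv I α ρ) : List α → I → I → Prop
  | [], i, j => i = j
  | b :: w, i, j => IsP Q w i (Q.s b) ∧ Q.t b = j

/-- the triples (path from `ν l` to `i` of weight less than `d l`, `l`, `i`) -/
abbrev TQ (Q : Qv I α ρ) (ω : α → ℕ) (d : ρ → ℕ) : Type :=
  {τ : (List α × ρ) × I // IsP Q τ.1.1 (Q.ν τ.1.2) τ.2 ∧ (τ.1.1.map ω).sum < d τ.1.2}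

variable {R : Type} [CommRing R]

/-- the data, extended by zero -/
def ext [DecidableEq I] {Q : Qv I α ρ} {vt : E → I} (x : VQ Q vt → R) : U α ρ E → R :=
  fun u => if h : ok Q vt u then x ⟨u, h⟩ else 0

/-- the matrix `A_b` -/
def mA (x : U α ρ E → R) (b : α) : Matrix E E R := Matrix.of fun a c => x (a, Sum.inl (b, c))

/-- the vector `v_l` -/
def mv (x : U α ρ E → R) (l : ρ) : E → R := fun a => x (a, Sum.inr l)

/-- the vector `A_{b_1} (A_{b_2} ⋯ (A_{b_k} v_l))` for the word `[b_1, …, b_k]` -/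
def wv [Fintype E] (x : U α ρ E → R) (w : List α) (l : ρ) : E → R :=
  w.foldr (fun b y => (mA x b).mulVec y) (mv x l)

variable [DecidableEq I] [Fintype E] [DecidableEq E]

/-- the determinant at the vertex `i` -/
def dq (Q : Qv I α ρ) (vt : E → I) (ω : α → ℕ) (d : ρ → ℕ) (e : TQ Q ω d ≃ E) (i : I)
    (x : VQ Q vt → R) : R :=
  (Matrix.of fun a c : {y : E // vt y = i} =>
    wv (ext x) (e.symm a.1).1.1.1 (e.symm a.1).1.1.2 c.1).det

/-- the product of the powers of the determinants -/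
def FQ [Fintype I] (Q : Qv I α ρ) (vt : E → I) (ω : α → ℕ) (d : ρ → ℕ) (e : TQ Q ω d ≃ E)
    (a : I → ℕ) (x : VQ Q vt → R) : R := ∏ i, dq Q vt ω d e i x ^ a i

/-- the action of `G` (with the inverse `Gi`) and of scalars:
`A_b ↦ u_b G A_b G⁻¹`, `v_l ↦ z_l G v_l` -/
def act {Q : Qv I α ρ} {vt : E → I} (G Gi : Matrix E E R) (u : α → R) (z : ρ → R)
    (x : VQ Q vt → R) : VQ Q vt → R
  | ⟨(a, Sum.inl (b, c)), _⟩ => u b * (G * mA (ext x) b * Gi) a c
  | ⟨(a, Sum.inr l), _⟩ => z l * G.mulVec (mv (ext x) l) a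

/-- `G` maps each space to itself -/
def Blk (vt : E → I) (G : Matrix E E R) : Prop := ∀ a c, vt a ≠ vt c → G a c = 0

/-- the determinant of the block at the vertex `i` -/
def dG (vt : E → I) (G : Matrix E E R) (i : I) : R :=
  (Matrix.of fun a c : {y : E // vt y = i} => G a.1 c.1).det

/-- the factor of `FQ` for `G` and the scalars -/
def chq [Fintype I] (Q : Qv I α ρ) (vt : E → I) (ω : α → ℕ) (d : ρ → ℕ) (e : TQ Q ω d ≃ E)
    (a : I → ℕ) (G : Matrix E E R) (u : α → R) (z : ρ → R) : R :=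
  (∏ i, dG vt G i ^ a i) *
    ∏ y : E, (((e.symm y).1.1.1.map u).prod * z (e.symm y).1.1.2) ^ a (vt y)

end data

section step

variable {I α ρ E : Type}

/-- the index set of the vectors after the step: `v_j` is replaced by the columns `e0` of the `A_b` with
`s b = ν j` -/
abbrev NxQ (Q : Qv I α ρ) (j : ρ) : Type := {l : ρ // l ≠ j} ⊕ {b : α // Q.s b = Q.ν j}

/-- the quiver after the step -/
def Qn (Q : Qv I α ρ) (j : ρ) : Qv I α (NxQ Q j) where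
  s := Q.s
  t := Q.t
  ν := Sum.elim (fun l => Q.ν l.1) fun b => Q.t b.1

/-- the numbers after the step -/
def dnq (Q : Qv I α ρ) (ω : α → ℕ) (d : ρ → ℕ) (j : ρ) : NxQ Q j → ℕ :=
  Sum.elim (fun l => d l.1) fun b => d j - ω b.1

/-- the basis after the step -/
abbrev En {E : Type} (e0 : E) : Type := {y : E // y ≠ e0}

/-- the vertices of the basis after the step -/
def vn (vt : E → I) (e0 : E) : En e0 → I := fun y => vt y.1

/-- the variables after the step, as variables before the step -/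
def ioq (Q : Qv I α ρ) (vt : E → I) (j : ρ) (e0 : E) (h0 : vt e0 = Q.ν j) :
    VQ (Qn Q j) (vn vt e0) → VQ Q vt
  | ⟨(a, Sum.inl (b, c)), h⟩ => ⟨(a.1, Sum.inl (b, c.1)), h⟩
  | ⟨(a, Sum.inr (Sum.inl l)), h⟩ => ⟨(a.1, Sum.inr l.1), h⟩
  | ⟨(a, Sum.inr (Sum.inr b)), h⟩ => ⟨(a.1, Sum.inl (b.1, e0)), h, h0.trans b.2.symm⟩

/-- the number of paths from `i` to `i'` of weight less than `n` -/
noncomputable def nwq (Q : Qv I α ρ) (ω : α → ℕ) (i i' : I) (n : ℕ) : ℕ :=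
  Nat.card {w : List α // IsP Q w i i' ∧ (w.map ω).sum < n}

/-- the degree of `FQ` in a vector at the vertex `i` with the number `n` -/
noncomputable def NQ [Fintype I] (Q : Qv I α ρ) (ω : α → ℕ) (a : I → ℕ) (i : I) (n : ℕ) : ℕ :=
  ∑ i', a i' * nwq Q ω i i' n

open Classical in
/-- the vector field of the elementary matrix `E_{pq}`: `δ v_l = E_{pq} v_l`, `δ A_b = [E_{pq}, A_b]` -/
noncomputable def Mpq {Q : Qv I α ρ} {vt : E → I} (p q : E) (u w : VQ Q vt) : ℝ :=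
  (if u.1.1 = q ∧ w.1.1 = p ∧ u.1.2 = w.1.2 then 1 else 0) -
    if u.1.1 = w.1.1 ∧ ∃ b, u.1.2 = Sum.inl (b, p) ∧ w.1.2 = Sum.inl (b, q) then 1 else 0

/-- the level of an element of `TQ` -/
def lev {Q : Qv I α ρ} {ω : α → ℕ} {d : ρ → ℕ} (τ : TQ Q ω d) : ℕ :=
  d τ.1.1.2 - (τ.1.1.1.map ω).sum

/-- `μ` numbers the basis at each vertex by `1, 2, …`, such that the levels increase -/
def ProfQ [DecidableEq I] [Fintype E] {Q : Qv I α ρ} (vt : E → I) {ω : α → ℕ} {d : ρ → ℕ}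
    (e : TQ Q ω d ≃ E) (μ : E → ℕ) : Prop :=
  (∀ x y, vt x = vt y → μ x = μ y → x = y) ∧
  (∀ x, 0 < μ x ∧ μ x ≤ Fintype.card {y // vt y = vt x}) ∧
  ∀ x y, vt x = vt y → μ x ≤ μ y → lev (e.symm x) ≤ lev (e.symm y)

end step

/-- **R1 (the step).** -/
def S_DETq : Prop := ∀ (I α ρ E : Type) [DecidableEq I] [Fintype E] [DecidableEq E]
  (Q : Qv I α ρ) (vt : E → I) (ω : α → ℕ) (d : ρ → ℕ) (e : TQ Q ω d ≃ E),
  (∀ τ, vt (e τ) = τ.1.2) → ∀ (j : ρ) (e0 : E) (h0 : vt e0 = Q.ν j), 0 < d j → (∀ l, d l ≤ d j) →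
  ∀ e' : TQ (Qn Q j) ω (dnq Q ω d j) ≃ En e0, (∀ τ, vn vt e0 (e' τ) = τ.1.2) → ∀ i : I,
  ∃ ε : ℤ, (ε = 1 ∨ ε = -1) ∧ ∀ (R : Type) [CommRing R] (x : VQ Q vt → R),
    (∀ (a : E) (h : vt a = Q.ν j), x ⟨(a, Sum.inr j), h⟩ = if a = e0 then 1 else 0) →
    dq Q vt ω d e i x = (ε : R) *
      dq (Qn Q j) (vn vt e0) ω (dnq Q ω d j) e' i fun u => x (ioq Q vt j e0 h0 u)

/-- **R2 (invariance and degree).** -/
def S_INVq : Prop := ∀ (I α ρ E : Type) [Fintype I] [DecidableEq I] [Fintype α] [Fintype ρ]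
  [Fintype E] [DecidableEq E] (Q : Qv I α ρ) (vt : E → I) (ω : α → ℕ) (d : ρ → ℕ)
  (e : TQ Q ω d ≃ E), (∀ τ, vt (e τ) = τ.1.2) → ∀ (a : I → ℕ),
  (∀ p q : E, p ≠ q → vt p = vt q →
    lin (Mpq p q) (FQ Q vt ω d e a (X : VQ Q vt → MvPolynomial (VQ Q vt) ℂ)) = 0) ∧
  ∀ j : ρ, (∑ y : {y : E // vt y = Q.ν j}, gen (Sum.inl ⟨(y.1, Sum.inr j), y.2⟩) *
      gen (Sum.inr ⟨(y.1, Sum.inr j), y.2⟩) : Module.End ℂ (MvPolynomial (VQ Q vt) ℂ))
    (FQ Q vt ω d e a X) = (NQ Q ω a (Q.ν j) (d j) : ℂ) • FQ Q vt ω d e a X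

/-- **R3 (equivariance).** -/
def S_ACTq : Prop := ∀ (R : Type) [CommRing R] (I α ρ E : Type) [Fintype I] [DecidableEq I]
  [Fintype E] [DecidableEq E] (Q : Qv I α ρ) (vt : E → I) (ω : α → ℕ) (d : ρ → ℕ)
  (e : TQ Q ω d ≃ E), (∀ τ, vt (e τ) = τ.1.2) → ∀ (a : I → ℕ),
  (∀ (G Gi : Matrix E E R) (u : α → R) (z : ρ → R) (x : VQ Q vt → R), Gi * G = 1 → Blk vt G →
    Blk vt Gi → FQ Q vt ω d e a (act G Gi u z x) = chq Q vt ω d e a G u z * FQ Q vt ω d e a x) ∧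
  ∀ (x y : VQ Q vt → R) (j : ρ) (c : R),
    (∀ v : VQ Q vt, v.1.2 ≠ Sum.inr j → y v = x v) →
    (∀ v : VQ Q vt, v.1.2 = Sum.inr j → y v = c * x v) →
    FQ Q vt ω d e a y = c ^ NQ Q ω a (Q.ν j) (d j) * FQ Q vt ω d e a x

/-- **R5 (uniqueness of the relative invariant).** -/
def S_UNQq : Prop := ∀ (I α ρ E : Type) [Fintype I] [DecidableEq I] [Fintype α] [Fintype ρ]
  [Fintype E] [DecidableEq E] (Q : Qv I α ρ) (vt : E → I) (ω : α → ℕ) (d : ρ → ℕ)
  (e : TQ Q ω d ≃ E), (∀ τ, vt (e τ) = τ.1.2) → ∀ (a : I → ℕ) (n : ℕ)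
  (h : MvPolynomial (VQ Q vt) ℂ),
  (∀ (G Gi : Matrix E E ℂ) (u : α → ℂ) (z : ρ → ℂ) (x : VQ Q vt → ℂ), Gi * G = 1 → Blk vt G →
    Blk vt Gi → (∀ b, u b ≠ 0) → (∀ l, z l ≠ 0) →
    eval (act G Gi u z x) h = chq Q vt ω d e a G u z ^ n * eval x h) →
  ∃ c : ℂ, h = C c * (FQ Q vt ω d e a X) ^ n

/-- **R6 (the profile).** -/
def S_PRFq : Prop := ∀ (I α ρ E : Type) [DecidableEq I] [Fintype E] [DecidableEq E]
  (Q : Qv I α ρ) (vt : E → I) (ω : α → ℕ) (d : ρ → ℕ) (e : TQ Q ω d ≃ E),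
  (∀ τ, vt (e τ) = τ.1.2) → (∃ μ : E → ℕ, ProfQ vt e μ) ∧
  ∀ μ : E → ℕ, ProfQ vt e μ → Nonempty E → ∃ (j : ρ) (e0 : E) (_ : vt e0 = Q.ν j), 0 < d j ∧
    (∀ l, d l ≤ d j) ∧ μ e0 = Fintype.card {y // vt y = Q.ν j} ∧ lev (e.symm e0) = d j ∧
    ∃ e' : TQ (Qn Q j) ω (dnq Q ω d j) ≃ En e0, (∀ τ, vn vt e0 (e' τ) = τ.1.2) ∧
      (∀ y : En e0, lev (e'.symm y) = lev (e.symm y.1)) ∧
      ProfQ (vn vt e0) e' fun y => μ y.1

end Pool.Agent.K1H70.KQ
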