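import Pool.Agent.K1H70.KR.Pad3
import Pool.Agent.K1H70.KQ.Stm

set_option autoImplicit false

namespace Pool.Agent.K1H70.KQ

open Pool.Agent.K1H70.KR (nrm)

/-- **R4 (bases of the lattices).** -/
def S_BASq : Prop := ∀ (p : ℕ) [Fact p.Prime] (I E : Type) [DecidableEq I] [Fintype E]
  [DecidableEq E] (vt : E → I) (i0 : I) (e0 : E) (h0 : vt e0 = i0)
  (v : {y : E // vt y = i0} → ℤ_[p]), ∃ (c0 : ℤ_[p]) (G Gi : Matrix E E ℤ_[p]),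
    Gi * G = 1 ∧ Blk vt G ∧ Blk vt Gi ∧ (∀ i, IsUnit (dG vt G i)) ∧
    (∀ y, v y = c0 * G y.1 e0) ∧ ‖c0‖₊ = nrm p v

end Pool.Agent.K1H70.KQ
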