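import Pool.Agent.K1H70.KQ.Bas

set_option autoImplicit false
set_option linter.unusedSectionVars false
set_option linter.unusedVariables false

/-! # Framed quivers: the step of the integral -/

namespace Pool.Agent.K1H70.KQ

open MeasureTheory Pool.Agent.W427.SMC Pool.Agent.TH192.PA Matrix
open Pool.Agent.K1H70.KR (nrm J nrm_meas J_eq)
open scoped ENNReal NNReal

attribute [local instance] msZ bsZ

variable {I α ρ E : Type} [Fintype I] [DecidableEq I] [Fintype α] [Fintype ρ] [Fintype E]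
  [DecidableEq E] {Q : Qv I α ρ} {vt : E → I}

section hom

variable {R S : Type} [CommRing R] [CommRing S]

theorem ext_hom (φ : R →+* S) (x : VQ Q vt → R) (u : U α ρ E) :
    ext (fun u => φ (x u)) u = φ (ext x u) := by
  unfold ext
  by_cases h : ok Q vt u
  · rw [dif_pos h, dif_pos h]
  · rw [dif_neg h, dif_neg h, map_zero]

theorem wv_hom (φ : R →+* S) (x : VQ Q vt → R) (w : List α) (l : ρ) :
    wv (ext fun u => φ (x u)) w l = fun a => φ (wv (ext x) w l a) := by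
  induction w with
  | nil =>
    funext a
    exact ext_hom φ x _
  | cons b w ih =>
    change (mA (ext fun u => φ (x u)) b).mulVec (wv (ext fun u => φ (x u)) w l) =
      fun a => φ ((mA (ext x) b).mulVec (wv (ext x) w l) a)
    rw [ih]
    have h1 : mA (ext fun u => φ (x u)) b = (mA (ext x) b).map φ := by
      ext a c
      exact ext_hom φ x _
    funext a
    rw [h1]
    exact (RingHom.map_mulVec φ (mA (ext x) b) (wv (ext x) w l) a).symm

theorem dq_hom (φ : R →+* S) (ω : α → ℕ) (d : ρ → ℕ) (e : TQ Q ω d ≃ E) (i : I)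
    (x : VQ Q vt → R) : dq Q vt ω d e i (fun u => φ (x u)) = φ (dq Q vt ω d e i x) := by
  unfold dq
  rw [RingHom.map_det]
  congr 1
  ext k a
  rw [Matrix.of_apply, wv_hom]
  rfl

theorem FQ_hom (φ : R →+* S) (ω : α → ℕ) (d : ρ → ℕ) (e : TQ Q ω d ≃ E) (a : I → ℕ)
    (x : VQ Q vt → R) : FQ Q vt ω d e a (fun u => φ (x u)) = φ (FQ Q vt ω d e a x) := by
  unfold FQ
  rw [map_prod]
  refine Finset.prod_congr rfl fun i _ => ?_
  rw [dq_hom, map_pow]

end hom

variable (Q vt) in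
/-- the polynomial with integral coefficients -/
noncomputable def fpq (ω : α → ℕ) (d : ρ → ℕ) (e : TQ Q ω d ≃ E) (a : I → ℕ) :
    MvPolynomial (VQ Q vt) ℤ := FQ Q vt ω d e a MvPolynomial.X

variable (p : ℕ) [Fact p.Prime]

theorem fq_aeval (ω : α → ℕ) (d : ρ → ℕ) (e : TQ Q ω d ≃ E) (a : I → ℕ) (x : VQ Q vt → ℤ_[p]) :
    MvPolynomial.aeval x (fpq Q vt ω d e a) = FQ Q vt ω d e a x := by
  have h := FQ_hom (MvPolynomial.aeval x : MvPolynomial (VQ Q vt) ℤ →ₐ[ℤ] ℤ_[p]).toRingHom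
    ω d e a MvPolynomial.X
  rw [fpq]
  refine h.symm.trans ?_
  congr 1
  funext u
  exact MvPolynomial.aeval_X x u

theorem fq_cont (ω : α → ℕ) (d : ρ → ℕ) (e : TQ Q ω d ≃ E) (a : I → ℕ) :
    Continuous fun x : VQ Q vt → ℤ_[p] => FQ Q vt ω d e a x := by
  have : (fun x : VQ Q vt → ℤ_[p] => FQ Q vt ω d e a x) =
      fun z => MvPolynomial.eval z (MvPolynomial.map (Int.castRingHom ℤ_[p]) (fpq Q vt ω d e a)) := by
    funext z
    rw [MvPolynomial.eval_map, ← fq_aeval, MvPolynomial.aeval_def]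
    rfl
  rw [this]
  exact MvPolynomial.continuous_eval _

variable (Q vt) in
/-- the integral -/
noncomputable def II (ω : α → ℕ) (d : ρ → ℕ) (e : TQ Q ω d ≃ E) (a : I → ℕ) (s : ℝ) : ℝ≥0∞ :=
  ∫⁻ x : VQ Q vt → ℤ_[p], tau p s (FQ Q vt ω d e a x) ∂(hm p (VQ Q vt))

section

variable (j : ρ)

variable (Q) (vt) in
/-- the other variables -/
abbrev YI : Type := {u : VQ Q vt // u.1.2 ≠ Sum.inr j}

noncomputable instance : Fintype (YI Q vt j) := by
  classical
  exact Subtype.fintype _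

theorem okj (u : VQ Q vt) (h : u.1.2 = Sum.inr j) : vt u.1.1 = Q.ν j := by
  obtain ⟨⟨a, b | l⟩, hu⟩ := u
  · cases h
  · have h1 : l = j := Sum.inr_injective h
    subst h1
    exact hu

/-- the data with `v_j = v` -/
noncomputable def jn {R : Type} (v : {y : E // vt y = Q.ν j} → R) (y : YI Q vt j → R) : VQ Q vt → R := by
  classical
  exact fun u => if h : u.1.2 = Sum.inr j then v ⟨u.1.1, okj j u h⟩ else y ⟨u, h⟩

theorem jn_pos {R : Type} (v : {y : E // vt y = Q.ν j} → R) (y : YI Q vt j → R) (u : VQ Q vt)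
    (h : u.1.2 = Sum.inr j) : jn j v y u = v ⟨u.1.1, okj j u h⟩ := dif_pos h

theorem jn_neg {R : Type} (v : {y : E // vt y = Q.ν j} → R) (y : YI Q vt j → R) (u : VQ Q vt)
    (h : u.1.2 ≠ Sum.inr j) : jn j v y u = y ⟨u, h⟩ := dif_neg h

/-- the two kinds of variables -/
noncomputable def eqS : YI Q vt j ⊕ {y : E // vt y = Q.ν j} ≃ VQ Q vt := by
  classical
  exact {
    toFun := Sum.elim (fun u => u.1) fun a => ⟨(a.1, Sum.inr j), a.2⟩
    invFun := fun u => if h : u.1.2 = Sum.inr j then Sum.inr ⟨u.1.1, okj j u h⟩ else Sum.inl ⟨u, h⟩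
    left_inv := by
      rintro (⟨u, hu⟩ | a)
      · exact dif_neg hu
      · exact dif_pos rfl
    right_inv := by
      intro u
      by_cases h : u.1.2 = Sum.inr j
      · have h1 : (if h : u.1.2 = Sum.inr j then Sum.inr ⟨u.1.1, okj j u h⟩ else Sum.inl ⟨u, h⟩ :
          YI Q vt j ⊕ {y : E // vt y = Q.ν j}) = Sum.inr ⟨u.1.1, okj j u h⟩ := dif_pos h
        refine (congrArg (Sum.elim (fun u : YI Q vt j => u.1)
          fun a => (⟨(a.1, Sum.inr j), a.2⟩ : VQ Q vt)) h1).trans ?_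
        exact Subtype.ext (Prod.ext rfl h.symm)
      · have h1 : (if h : u.1.2 = Sum.inr j then Sum.inr ⟨u.1.1, okj j u h⟩ else Sum.inl ⟨u, h⟩ :
          YI Q vt j ⊕ {y : E // vt y = Q.ν j}) = Sum.inl ⟨u, h⟩ := dif_neg h
        exact congrArg (Sum.elim (fun u : YI Q vt j => u.1)
          fun a => (⟨(a.1, Sum.inr j), a.2⟩ : VQ Q vt)) h1 }

theorem jn_eq {R : Type} (v : {y : E // vt y = Q.ν j} → R) (y : YI Q vt j → R) :
    jn j v y = fun u => Sum.elim y v ((eqS j).symm u) := by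
  classical
  funext u
  by_cases h : u.1.2 = Sum.inr j
  · rw [jn_pos j v y u h]
    have h1 : (eqS (Q := Q) (vt := vt) j).symm u = Sum.inr ⟨u.1.1, okj j u h⟩ := dif_pos h
    rw [h1]
    rfl
  · rw [jn_neg j v y u h]
    have h1 : (eqS (Q := Q) (vt := vt) j).symm u = Sum.inl ⟨u, h⟩ := dif_neg h
    rw [h1]
    rfl

theorem split (g : (VQ Q vt → ℤ_[p]) → ℝ≥0∞) (hg : Measurable g) :
    ∫⁻ x, g x ∂(hm p (VQ Q vt)) =
      ∫⁻ v : {y : E // vt y = Q.ν j} → ℤ_[p], ∫⁻ y : YI Q vt j → ℤ_[p], g (jn j v y)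
        ∂(hm p (YI Q vt j)) ∂(hm p {y : E // vt y = Q.ν j}) := by
  have hm1 : Measurable fun (z : YI Q vt j ⊕ {y : E // vt y = Q.ν j} → ℤ_[p]) u =>
      z ((eqS j).symm u) := by
    refine Continuous.measurable ?_
    fun_prop
  have h1 := lintegral_equivariant p (fun (z : YI Q vt j ⊕ {y : E // vt y = Q.ν j} → ℤ_[p]) u =>
    z ((eqS j).symm u)) (fun x u => x (eqS j u)) hm1 (fun z y => by
      funext u
      simp) g hg
  rw [← h1]
  refine (lintegral_sum p _ (hg.comp hm1)).trans ?_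
  refine lintegral_congr fun v => lintegral_congr fun y => ?_
  rw [jn_eq]
  rfl

/-- the action of an invertible matrix on the other variables -/
noncomputable def aq {R : Type} [CommRing R] (Gi G : Matrix E E R) (y : YI Q vt j → R) :
    YI Q vt j → R :=
  fun u => act Gi G (fun _ => 1) (fun _ => 1) (jn j 0 y) u.1

end

section blk

variable {R : Type} [CommRing R]

theorem ext_pos (x : VQ Q vt → R) (u : U α ρ E) (h : ok Q vt u) : ext x u = x ⟨u, h⟩ := dif_pos h

theorem ext_neg (x : VQ Q vt → R) (u : U α ρ E) (h : ¬ ok Q vt u) : ext x u = 0 := dif_neg h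

theorem mA_zero (x : VQ Q vt → R) (b : α) (a c : E) (h : ¬ (vt a = Q.t b ∧ vt c = Q.s b)) :
    mA (ext x) b a c = 0 := ext_neg x (a, Sum.inl (b, c)) h

theorem mv_zero (x : VQ Q vt → R) (l : ρ) (a : E) (h : vt a ≠ Q.ν l) :
    mv (ext x) l a = 0 := ext_neg x (a, Sum.inr l) h

theorem blk_zero {G Gi : Matrix E E R} (hG : Blk vt G) (hGi : Blk vt Gi) (x : VQ Q vt → R) (b : α)
    (a c : E) (h : ¬ (vt a = Q.t b ∧ vt c = Q.s b)) : (G * mA (ext x) b * Gi) a c = 0 := by
  rw [Matrix.mul_apply]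
  refine Finset.sum_eq_zero fun c' _ => ?_
  rw [Matrix.mul_apply, Finset.sum_mul]
  refine Finset.sum_eq_zero fun a' _ => ?_
  by_cases h1 : vt a = vt a'
  · by_cases h2 : vt c' = vt c
    · rw [mA_zero x b a' c' (by rw [← h1, h2]; exact h), mul_zero, zero_mul]
    · rw [hGi c' c h2, mul_zero]
  · rw [hG a a' h1, zero_mul, zero_mul]

theorem blkv_zero {G : Matrix E E R} (hG : Blk vt G) (x : VQ Q vt → R) (l : ρ)
    (a : E) (h : vt a ≠ Q.ν l) : G.mulVec (mv (ext x) l) a = 0 := by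
  change ∑ a', G a a' * mv (ext x) l a' = 0
  refine Finset.sum_eq_zero fun a' _ => ?_
  by_cases h1 : vt a = vt a'
  · rw [mv_zero x l a' (by rw [← h1]; exact h), mul_zero]
  · rw [hG a a' h1, zero_mul]

theorem mA_act {G Gi : Matrix E E R} (hG : Blk vt G) (hGi : Blk vt Gi) (x : VQ Q vt → R) (b : α) :
    mA (ext (act G Gi (fun _ => 1) (fun _ => 1) x)) b = G * mA (ext x) b * Gi := by
  ext a c
  by_cases h : vt a = Q.t b ∧ vt c = Q.s b
  · refine (ext_pos _ (a, Sum.inl (b, c)) h).trans ?_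
    change (1 : R) * (G * mA (ext x) b * Gi) a c = _
    rw [one_mul]
  · rw [mA_zero _ b a c h, blk_zero hG hGi x b a c h]

theorem mv_act {G Gi : Matrix E E R} (hG : Blk vt G) (hGi : Blk vt Gi) (x : VQ Q vt → R) (l : ρ) :
    mv (ext (act G Gi (fun _ => 1) (fun _ => 1) x)) l = G.mulVec (mv (ext x) l) := by
  funext a
  by_cases h : vt a = Q.ν l
  · refine (ext_pos _ (a, Sum.inr l) h).trans ?_
    change (1 : R) * G.mulVec (mv (ext x) l) a = _
    rw [one_mul]
  · rw [mv_zero _ l a h, blkv_zero hG x l a h]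

/-- data are determined by the matrices and vectors -/
theorem data_ext {x y : VQ Q vt → R} (h1 : ∀ b, mA (ext x) b = mA (ext y) b)
    (h2 : ∀ l, mv (ext x) l = mv (ext y) l) : x = y := by
  funext u
  obtain ⟨⟨a, ⟨b, c⟩ | l⟩, hu⟩ := u
  · have h3 := congrFun (congrFun (h1 b) a) c
    exact (ext_pos x _ hu).symm.trans (h3.trans (ext_pos y _ hu))
  · have h3 := congrFun (h2 l) a
    exact (ext_pos x _ hu).symm.trans (h3.trans (ext_pos y _ hu))

variable (j : ρ)

theorem mA_jn (v v' : {y : E // vt y = Q.ν j} → R) (y : YI Q vt j → R) (b : α) :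
    mA (ext (jn j v y)) b = mA (ext (jn j v' y)) b := by
  ext a c
  by_cases h : vt a = Q.t b ∧ vt c = Q.s b
  · have h1 : ∀ v : {y : E // vt y = Q.ν j} → R, mA (ext (jn j v y)) b a c =
        y ⟨⟨(a, Sum.inl (b, c)), h⟩, by simp⟩ := fun v =>
      (ext_pos _ (a, Sum.inl (b, c)) h).trans (jn_neg j v y _ (by simp))
    rw [h1, h1]
  · rw [mA_zero _ b a c h, mA_zero _ b a c h]

theorem mv_jn (v v' : {y : E // vt y = Q.ν j} → R) (y : YI Q vt j → R) (l : ρ) (hl : l ≠ j) :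
    mv (ext (jn j v y)) l = mv (ext (jn j v' y)) l := by
  funext a
  by_cases h : vt a = Q.ν l
  · have h1 : ∀ v : {y : E // vt y = Q.ν j} → R, mv (ext (jn j v y)) l a =
        y ⟨⟨(a, Sum.inr l), h⟩, by simpa using hl⟩ := fun v =>
      (ext_pos _ (a, Sum.inr l) h).trans (jn_neg j v y _ (by simpa using hl))
    rw [h1, h1]
  · rw [mv_zero _ l a h, mv_zero _ l a h]

theorem mv_jn_j (v : {y : E // vt y = Q.ν j} → R) (y : YI Q vt j → R) (a : E)
    (h : vt a = Q.ν j) : mv (ext (jn j v y)) j a = v ⟨a, h⟩ :=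
  (ext_pos _ (a, Sum.inr j) h).trans (jn_pos j v y _ rfl)

/-- `jn` of the restriction -/
theorem jn_res (v : {y : E // vt y = Q.ν j} → R) (x : VQ Q vt → R)
    (hv : ∀ a (h : vt a = Q.ν j), v ⟨a, h⟩ = x ⟨(a, Sum.inr j), h⟩) :
    jn j v (fun u : YI Q vt j => x u.1) = x := by
  funext u
  by_cases h : u.1.2 = Sum.inr j
  · rw [jn_pos j v _ u h, hv]
    congr 1
    exact Subtype.ext (Prod.ext rfl h.symm)
  · rw [jn_neg j v _ u h]

theorem mA_aq {G Gi : Matrix E E R} (hG : Blk vt G) (hGi : Blk vt Gi) (y : YI Q vt j → R)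
    (v : {y : E // vt y = Q.ν j} → R) (b : α) :
    mA (ext (jn j v (aq j Gi G y))) b = Gi * mA (ext (jn j 0 y)) b * G := by
  rw [mA_jn j v (fun a => act Gi G (fun _ => 1) (fun _ => 1) (jn j 0 y) ⟨(a.1, Sum.inr j), a.2⟩)
    (aq j Gi G y) b]
  have h1 : jn j (fun a : {y : E // vt y = Q.ν j} =>
      act Gi G (fun _ => 1) (fun _ => 1) (jn j 0 y) ⟨(a.1, Sum.inr j), a.2⟩) (aq j Gi G y) =
      act Gi G (fun _ => 1) (fun _ => 1) (jn j 0 y) := jn_res j _ _ fun a h => rfl
  rw [h1, mA_act hGi hG]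

theorem mv_aq {G Gi : Matrix E E R} (hG : Blk vt G) (hGi : Blk vt Gi) (y : YI Q vt j → R)
    (v : {y : E // vt y = Q.ν j} → R) (l : ρ) (hl : l ≠ j) :
    mv (ext (jn j v (aq j Gi G y))) l = Gi.mulVec (mv (ext (jn j 0 y)) l) := by
  rw [mv_jn j v (fun a => act Gi G (fun _ => 1) (fun _ => 1) (jn j 0 y) ⟨(a.1, Sum.inr j), a.2⟩)
    (aq j Gi G y) l hl]
  have h1 : jn j (fun a : {y : E // vt y = Q.ν j} =>
      act Gi G (fun _ => 1) (fun _ => 1) (jn j 0 y) ⟨(a.1, Sum.inr j), a.2⟩) (aq j Gi G y) =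
      act Gi G (fun _ => 1) (fun _ => 1) (jn j 0 y) := jn_res j _ _ fun a h => rfl
  rw [h1, mv_act hGi hG]

theorem y_ext {y y' : YI Q vt j → R} (h1 : ∀ b, mA (ext (jn j 0 y)) b = mA (ext (jn j 0 y')) b)
    (h2 : ∀ l, l ≠ j → mv (ext (jn j 0 y)) l = mv (ext (jn j 0 y')) l) : y = y' := by
  have h3 : jn j 0 y = jn j 0 y' := by
    refine data_ext h1 fun l => ?_
    by_cases hl : l = j
    · subst hl
      funext a
      by_cases h : vt a = Q.ν l
      · rw [mv_jn_j l 0 y a h, mv_jn_j l 0 y' a h]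
      · rw [mv_zero _ l a h, mv_zero _ l a h]
    · exact h2 l hl
  funext u
  have h4 := congrFun h3 u.1
  rwa [jn_neg j 0 y u.1 u.2, jn_neg j 0 y' u.1 u.2] at h4

theorem jn_add (y y' : YI Q vt j → R) : jn j 0 (y + y') = jn j 0 y + jn j 0 y' := by
  funext u
  by_cases h : u.1.2 = Sum.inr j
  · rw [Pi.add_apply, jn_pos j _ _ u h, jn_pos j _ _ u h, jn_pos j _ _ u h]
    simp
  · rw [Pi.add_apply, jn_neg j _ _ u h, jn_neg j _ _ u h, jn_neg j _ _ u h]
    rfl

theorem ext_add (x x' : VQ Q vt → R) (u : U α ρ E) : ext (x + x') u = ext x u + ext x' u := by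
  unfold ext
  by_cases h : ok Q vt u
  · rw [dif_pos h, dif_pos h, dif_pos h]
    rfl
  · rw [dif_neg h, dif_neg h, dif_neg h, add_zero]

theorem mA_add (y y' : YI Q vt j → R) (b : α) :
    mA (ext (jn j 0 (y + y'))) b = mA (ext (jn j 0 y)) b + mA (ext (jn j 0 y')) b := by
  ext a c
  rw [jn_add]
  exact ext_add _ _ _

theorem mv_add (y y' : YI Q vt j → R) (l : ρ) :
    mv (ext (jn j 0 (y + y'))) l = mv (ext (jn j 0 y)) l + mv (ext (jn j 0 y')) l := by
  funext a
  rw [jn_add]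
  exact ext_add _ _ _

theorem aq_eqv {G Gi : Matrix E E R} (hG : Blk vt G) (hGi : Blk vt Gi) (h : Gi * G = 1)
    (y z : YI Q vt j → R) : aq j Gi G (aq j G Gi y + z) = y + aq j Gi G z := by
  have h' : G * Gi = 1 := mul_eq_one_comm.1 h
  refine y_ext j (fun b => ?_) fun l hl => ?_
  · rw [mA_aq j hG hGi, mA_add, mA_add, mA_aq j hG hGi, mA_aq j hGi hG, mul_add, add_mul]
    congr 1
    calc Gi * (G * mA (ext (jn j 0 y)) b * Gi) * G =
        (Gi * G) * mA (ext (jn j 0 y)) b * (Gi * G) := by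
          simp only [Matrix.mul_assoc]
      _ = _ := by rw [h, one_mul, mul_one]
  · rw [mv_aq j hG hGi _ _ _ hl, mv_add, mv_add, mv_aq j hGi hG _ _ _ hl,
      mv_aq j hG hGi _ _ _ hl, Matrix.mulVec_add, Matrix.mulVec_mulVec, h, Matrix.one_mulVec]

end blk

section cont

variable (j : ρ)

theorem jn_cont (v : {y : E // vt y = Q.ν j} → ℤ_[p]) (w : VQ Q vt) :
    Continuous fun y : YI Q vt j → ℤ_[p] => jn j v y w := by
  by_cases hw : w.1.2 = Sum.inr j
  · simp only [jn_pos j v _ w hw]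
    exact continuous_const
  · simp only [jn_neg j v _ w hw]
    fun_prop

theorem ext_cont (v : {y : E // vt y = Q.ν j} → ℤ_[p]) (w : U α ρ E) :
    Continuous fun y : YI Q vt j → ℤ_[p] => ext (jn j v y) w := by
  unfold ext
  by_cases h : ok Q vt w
  · simp only [dif_pos h]
    exact jn_cont p j v ⟨w, h⟩
  · simp only [dif_neg h]
    exact continuous_const

theorem aq_meas (Gi G : Matrix E E ℤ_[p]) :
    Measurable (aq j Gi G : (YI Q vt j → ℤ_[p]) → YI Q vt j → ℤ_[p]) := by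
  refine Continuous.measurable ?_
  refine continuous_pi fun u => ?_
  obtain ⟨⟨⟨a, ⟨b, c⟩ | l⟩, hu⟩, hu'⟩ := u
  · change Continuous fun y : YI Q vt j → ℤ_[p] => (1 : ℤ_[p]) * (Gi * mA (ext (jn j 0 y)) b * G) a c
    have h1 : Continuous fun y : YI Q vt j → ℤ_[p] => mA (ext (jn j 0 y)) b :=
      continuous_matrix fun a c => ext_cont p j 0 (a, Sum.inl (b, c))
    exact continuous_const.mul
      (((continuous_const.matrix_mul h1).matrix_mul continuous_const).matrix_elem a c)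
  · change Continuous fun y : YI Q vt j → ℤ_[p] => (1 : ℤ_[p]) * Gi.mulVec (mv (ext (jn j 0 y)) l) a
    have h1 : Continuous fun y : YI Q vt j → ℤ_[p] => mv (ext (jn j 0 y)) l :=
      continuous_pi fun a => ext_cont p j 0 (a, Sum.inr l)
    exact continuous_const.mul
      ((continuous_apply a).comp (Continuous.matrix_mulVec continuous_const h1))

end cont

end Pool.Agent.K1H70.KQ
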