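import Pool.Agent.K1H70.KQ.Pad2
import Pool.Agent.TH192.PA.Final

set_option autoImplicit false
set_option linter.unusedSectionVars false
set_option linter.unusedVariables false

/-! # Framed quivers: the step of the integral and the zeta function -/

namespace Pool.Agent.K1H70.KQ

open MeasureTheory Pool.Agent.W427.SMC Pool.Agent.TH192.PA Matrix
open Pool.Agent.K1H70.KR (nrm J nrm_meas J_eq)
open scoped ENNReal NNReal

attribute [local instance] msZ bsZ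

variable (p : ℕ) [Fact p.Prime]

theorem prod_En {E M : Type} [Fintype E] [DecidableEq E] [CommMonoid M] (e0 : E) (f : E → M) :
    ∏ x, f x = f e0 * ∏ y : En e0, f y.1 := by
  rw [← Finset.mul_prod_erase Finset.univ f (Finset.mem_univ e0)]
  congr 1
  refine Finset.prod_subtype _ (fun x => ?_) f
  simp

section

variable {I α ρ E : Type} [Fintype I] [DecidableEq I] [Fintype α] [Fintype ρ] [Fintype E]
  [DecidableEq E] {Q : Qv I α ρ} {vt : E → I}

/-- the vector `e_0` -/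
def del (R : Type) [CommRing R] (Q : Qv I α ρ) (vt : E → I) (j : ρ) (e0 : E) :
    {y : E // vt y = Q.ν j} → R := fun a => if a.1 = e0 then 1 else 0

theorem fq_jn (hact : S_ACTq) (ω : α → ℕ) (d : ρ → ℕ) (e : TQ Q ω d ≃ E)
    (he : ∀ τ, vt (e τ) = τ.1.2) (a : I → ℕ) (j : ρ) (e0 : E) (h0 : vt e0 = Q.ν j)
    (v : {y : E // vt y = Q.ν j} → ℤ_[p]) (y : YI Q vt j → ℤ_[p]) (c0 : ℤ_[p])
    (G Gi : Matrix E E ℤ_[p]) (h : Gi * G = 1) (hG : Blk vt G) (hGi : Blk vt Gi)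
    (hv : ∀ y, v y = c0 * G y.1 e0) :
    FQ Q vt ω d e a (jn j v y) = c0 ^ NQ Q ω a (Q.ν j) (d j) * ((∏ i, dG vt G i ^ a i) *
      FQ Q vt ω d e a (jn j (del ℤ_[p] Q vt j e0) (aq j Gi G y))) := by
  have h' : G * Gi = 1 := mul_eq_one_comm.1 h
  obtain ⟨hA1, hA2⟩ := hact ℤ_[p] I α ρ E Q vt ω d e he a
  have h1 : FQ Q vt ω d e a (jn j v y) = c0 ^ NQ Q ω a (Q.ν j) (d j) *
      FQ Q vt ω d e a (jn j (fun b => G b.1 e0) y) := by
    refine hA2 _ _ j c0 (fun u hu => ?_) fun u hu => ?_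
    · rw [jn_neg j _ _ u hu, jn_neg j _ _ u hu]
    · rw [jn_pos j _ _ u hu, jn_pos j _ _ u hu, hv]
  have h2 : FQ Q vt ω d e a (jn j (fun b => G b.1 e0) y) = (∏ i, dG vt G i ^ a i) *
      FQ Q vt ω d e a (jn j (del ℤ_[p] Q vt j e0) (aq j Gi G y)) := by
    have h3 := hA1 G Gi (fun _ => 1) (fun _ => 1) (jn j (del ℤ_[p] Q vt j e0) (aq j Gi G y)) h hG hGi
    have h4 : chq Q vt ω d e a G (fun _ : α => (1 : ℤ_[p])) (fun _ : ρ => (1 : ℤ_[p])) =
        ∏ i, dG vt G i ^ a i := by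
      unfold chq
      have h5 : ∏ y : E, (((e.symm y).1.1.1.map fun _ : α => (1 : ℤ_[p])).prod * 1) ^ a (vt y) = 1 := by
        refine Finset.prod_eq_one fun k _ => ?_
        have h6 : ((e.symm k).1.1.1.map fun _ : α => (1 : ℤ_[p])).prod = 1 :=
          List.prod_eq_one fun x hx => by
            rw [List.mem_map] at hx
            obtain ⟨_, -, rfl⟩ := hx
            rfl
        rw [h6, mul_one, one_pow]
      rw [h5, mul_one]
    rw [h4] at h3
    rw [← h3]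
    congr 1
    refine data_ext (fun b => ?_) fun l => ?_
    · rw [mA_act hG hGi, mA_aq j hG hGi, mA_jn j _ 0]
      calc mA (ext (jn j 0 y)) b = (G * Gi) * mA (ext (jn j 0 y)) b * (G * Gi) := by
            rw [h', one_mul, mul_one]
        _ = _ := by simp only [Matrix.mul_assoc]
    · rw [mv_act hG hGi]
      by_cases hl : l = j
      · subst hl
        funext b
        by_cases hb : vt b = Q.ν l
        · rw [mv_jn_j l _ _ b hb]
          change G b e0 = ∑ c, G b c * mv (ext (jn l (del ℤ_[p] Q vt l e0) (aq l Gi G y))) l c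
          rw [Finset.sum_eq_single e0]
          · rw [mv_jn_j l _ _ e0 h0]
            unfold del
            rw [if_pos rfl, mul_one]
          · intro c _ hc
            by_cases hcv : vt c = Q.ν l
            · rw [mv_jn_j l _ _ c hcv]
              unfold del
              rw [if_neg hc, mul_zero]
            · rw [mv_zero _ l c hcv, mul_zero]
          · intro h
            exact absurd (Finset.mem_univ _) h
        · rw [mv_zero _ l b hb, blkv_zero hG _ l b hb]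
      · rw [mv_aq j hG hGi _ _ _ hl, Matrix.mulVec_mulVec, h', Matrix.one_mulVec, mv_jn j _ 0 _ _ hl]
  rw [h1, h2]

theorem ioq_ne (j : ρ) (e0 : E) (h0 : vt e0 = Q.ν j) (u : VQ (Qn Q j) (vn vt e0)) :
    (ioq Q vt j e0 h0 u).1.2 ≠ Sum.inr j := by
  obtain ⟨⟨a, ⟨b, c⟩ | l | b⟩, hu⟩ := u
  · simp [ioq]
  · simp only [ioq, ne_eq, Sum.inr.injEq]
    exact l.2
  · simp [ioq]

theorem ioq_inj (j : ρ) (e0 : E) (h0 : vt e0 = Q.ν j) :
    Function.Injective (ioq Q vt j e0 h0) := by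
  intro u w h
  have h1 := congrArg Subtype.val h
  obtain ⟨⟨a, ⟨b, c⟩ | l | b⟩, hu⟩ := u <;> obtain ⟨⟨a', ⟨b', c'⟩ | l' | b'⟩, hw⟩ := w <;>
    simp only [ioq, Prod.mk.injEq, Sum.inl.injEq, Sum.inr.injEq, reduceCtorEq,
      and_false] at h1
  · obtain ⟨h2, h3, h4⟩ := h1
    have h5 : a = a' := Subtype.ext h2
    have h6 : c = c' := Subtype.ext h4
    subst h5 h3 h6
    rfl
  · exact absurd h1.2.2 c.2
  · obtain ⟨h2, h3⟩ := h1
    have h5 : a = a' := Subtype.ext h2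
    have h6 : l = l' := Subtype.ext h3
    subst h5 h6
    rfl
  · exact absurd h1.2.2.symm c'.2
  · obtain ⟨h2, h3, -⟩ := h1
    have h5 : a = a' := Subtype.ext h2
    have h6 : b = b' := Subtype.ext h3
    subst h5 h6
    rfl

/-- the section -/
noncomputable def sc (j : ρ) (e0 : E) (h0 : vt e0 = Q.ν j)
    (x : VQ (Qn Q j) (vn vt e0) → ℤ_[p]) : YI Q vt j → ℤ_[p] :=
  fun u => Function.extend (ioq Q vt j e0 h0) x 0 u.1

theorem nx_sc (j : ρ) (e0 : E) (h0 : vt e0 = Q.ν j) (x : VQ (Qn Q j) (vn vt e0) → ℤ_[p])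
    (z : YI Q vt j → ℤ_[p]) (v : {y : E // vt y = Q.ν j} → ℤ_[p]) :
    (fun u => jn j v (sc p j e0 h0 x + z) (ioq Q vt j e0 h0 u)) =
      x + fun u => jn j v z (ioq Q vt j e0 h0 u) := by
  funext u
  have h1 := ioq_ne j e0 h0 u
  rw [Pi.add_apply, jn_neg j _ _ _ h1, jn_neg j _ _ _ h1, Pi.add_apply]
  congr 1
  exact (ioq_inj j e0 h0).extend_apply x 0 u

theorem nx_meas (j : ρ) (e0 : E) (h0 : vt e0 = Q.ν j) (v : {y : E // vt y = Q.ν j} → ℤ_[p]) :
    Measurable fun (z : YI Q vt j → ℤ_[p]) u => jn j v z (ioq Q vt j e0 h0 u) :=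
  Continuous.measurable (continuous_pi fun u => jn_cont p j v _)

/-- **The step of the integral.** -/
theorem step_int (hdet : S_DETq) (hact : S_ACTq) (hbas : S_BASq) [DecidableEq ρ] (ω : α → ℕ) (d : ρ → ℕ)
    (e : TQ Q ω d ≃ E) (he : ∀ τ, vt (e τ) = τ.1.2) (a : I → ℕ) (j : ρ) (e0 : E)
    (h0 : vt e0 = Q.ν j) (hj : 0 < d j) (hmax : ∀ l, d l ≤ d j)
    (e' : TQ (Qn Q j) ω (dnq Q ω d j) ≃ En e0) (he' : ∀ τ, vn vt e0 (e' τ) = τ.1.2)
    (s : ℝ) (hs : 0 < s) :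
    II Q vt p ω d e a s = J p {y : E // vt y = Q.ν j} ((NQ Q ω a (Q.ν j) (d j) : ℝ) * s) *
      II (Qn Q j) (vn vt e0) p ω (dnq Q ω d j) e' a s := by
  have hd := hdet I α ρ E Q vt ω d e he j e0 h0 hj hmax e' he'
  choose ε hε hstep using hd
  have hmz : Measurable fun x : VQ Q vt → ℤ_[p] =>
      tau p s (FQ Q vt ω d e a x) := ((tau_cont p s hs.le).comp (fq_cont p ω d e a)).measurable
  have hmz' : Measurable fun x : VQ (Qn Q j) (vn vt e0) → ℤ_[p] =>
      tau p s (FQ (Qn Q j) (vn vt e0) ω (dnq Q ω d j) e' a x) :=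
    ((tau_cont p s hs.le).comp (fq_cont p ω _ e' a)).measurable
  unfold II
  rw [split p j _ hmz]
  have h1 : ∫⁻ y : YI Q vt j → ℤ_[p], tau p s (FQ Q vt ω d e a (jn j (del ℤ_[p] Q vt j e0) y))
      ∂(hm p (YI Q vt j)) = ∫⁻ x : VQ (Qn Q j) (vn vt e0) → ℤ_[p],
        tau p s (FQ (Qn Q j) (vn vt e0) ω (dnq Q ω d j) e' a x) ∂(hm p (VQ (Qn Q j) (vn vt e0))) := by
    have h1 := lintegral_equivariant p (fun (z : YI Q vt j → ℤ_[p]) u =>
      jn j (del ℤ_[p] Q vt j e0) z (ioq Q vt j e0 h0 u))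
      (sc p j e0 h0) (nx_meas p j e0 h0 _) (fun z y => nx_sc p j e0 h0 y z _) _ hmz'
    rw [← h1]
    refine lintegral_congr fun z => ?_
    have h2 : ∀ i, dq Q vt ω d e i (jn j (del ℤ_[p] Q vt j e0) z) = (ε i : ℤ_[p]) *
        dq (Qn Q j) (vn vt e0) ω (dnq Q ω d j) e' i
          fun u => jn j (del ℤ_[p] Q vt j e0) z (ioq Q vt j e0 h0 u) := fun i =>
      hstep i ℤ_[p] _ fun b hb => jn_pos j _ _ _ rfl
    have h3 : ‖FQ Q vt ω d e a (jn j (del ℤ_[p] Q vt j e0) z)‖ =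
        ‖FQ (Qn Q j) (vn vt e0) ω (dnq Q ω d j) e' a
          fun u => jn j (del ℤ_[p] Q vt j e0) z (ioq Q vt j e0 h0 u)‖ := by
      unfold FQ
      rw [norm_prod, norm_prod]
      refine Finset.prod_congr rfl fun i _ => ?_
      rw [norm_pow, norm_pow, h2 i, norm_mul]
      rcases hε i with h | h
      · rw [h, Int.cast_one, norm_one, one_mul]
      · rw [h, Int.cast_neg, Int.cast_one, norm_neg, norm_one, one_mul]
    unfold tau
    rw [h3]
  have h4 : ∀ v : {y : E // vt y = Q.ν j} → ℤ_[p], ∫⁻ y : YI Q vt j → ℤ_[p],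
      tau p s (FQ Q vt ω d e a (jn j v y)) ∂(hm p (YI Q vt j)) =
      ((nrm p v : ℝ≥0) : ℝ≥0∞) ^ ((NQ Q ω a (Q.ν j) (d j) : ℝ) * s) *
        ∫⁻ x : VQ (Qn Q j) (vn vt e0) → ℤ_[p],
          tau p s (FQ (Qn Q j) (vn vt e0) ω (dnq Q ω d j) e' a x)
            ∂(hm p (VQ (Qn Q j) (vn vt e0))) := by
    intro v
    obtain ⟨c0, G, Gi, h5, hG, hGi, h6, h7, h8⟩ := hbas p I E vt (Q.ν j) e0 h0 v
    have hmy : Measurable fun y : YI Q vt j → ℤ_[p] =>
        tau p s (FQ Q vt ω d e a (jn j (del ℤ_[p] Q vt j e0) y)) :=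
      hmz.comp (Continuous.measurable (continuous_pi fun w => jn_cont p j _ w))
    rw [← h1, ← lintegral_equivariant p (aq j Gi G) (aq j G Gi) (aq_meas p j Gi G)
      (fun z y => aq_eqv j hG hGi h5 y z) _ hmy]
    refine Eq.trans ?_ (lintegral_const_mul _ (hmy.comp (aq_meas p j Gi G)))
    refine lintegral_congr fun y => ?_
    rw [fq_jn p hact ω d e he a j e0 h0 v y c0 G Gi h5 hG hGi h7]
    have h9 : ‖∏ i, dG vt G i ^ a i‖₊ = 1 := by
      apply NNReal.coe_injective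
      rw [coe_nnnorm, norm_prod, NNReal.coe_one]
      refine Finset.prod_eq_one fun i _ => ?_
      rw [norm_pow, PadicInt.isUnit_iff.1 (h6 i), one_pow]
    rw [tau_eq p s hs.le, nnnorm_mul, nnnorm_mul, nnnorm_pow, h9,
      one_mul, ENNReal.coe_mul, ENNReal.mul_rpow_of_nonneg _ _ hs.le, h8, ENNReal.coe_pow,
      ← ENNReal.rpow_natCast, ← ENNReal.rpow_mul]
    congr 1
    exact (tau_eq p s hs.le _).symm
  rw [lintegral_congr h4, lintegral_mul_const _ (nrm_meas p _)]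
  rfl

theorem IsP_n (j : ρ) (w : List α) (i i' : I) : IsP (Qn Q j) w i i' ↔ IsP Q w i i' := by
  induction w generalizing i' with
  | nil => exact Iff.rfl
  | cons b w ih =>
    change (IsP (Qn Q j) w i (Q.s b) ∧ Q.t b = i') ↔ (IsP Q w i (Q.s b) ∧ Q.t b = i')
    rw [ih]

theorem NQ_n (j : ρ) (ω : α → ℕ) (a : I → ℕ) (i : I) (n : ℕ) :
    NQ (Qn Q j) ω a i n = NQ Q ω a i n := by
  unfold NQ nwq
  simp only [IsP_n]

/-- the exponent at a basis element -/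
noncomputable def cE (Q : Qv I α ρ) (vt : E → I) {ω : α → ℕ} {d : ρ → ℕ} (e : TQ Q ω d ≃ E)
    (a : I → ℕ) (x : E) : ℕ := NQ Q ω a (vt x) (lev (e.symm x))

theorem II_zero [IsEmpty E] (ω : α → ℕ) (d : ρ → ℕ) (e : TQ Q ω d ≃ E) (a : I → ℕ)
    (s : ℝ) (hs : 0 < s) : II Q vt p ω d e a s = 1 := by
  unfold II
  have h : ∀ x : VQ Q vt → ℤ_[p], tau p s (FQ Q vt ω d e a x) = 1 := by
    intro x
    have h1 : FQ Q vt ω d e a x = 1 := by
      unfold FQ
      refine Finset.prod_eq_one fun i _ => ?_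
      unfold dq
      rw [Matrix.det_isEmpty, one_pow]
    rw [h1]
    rw [tau_eq p s hs.le, nnnorm_one, ENNReal.coe_one, ENNReal.one_rpow]
  rw [lintegral_congr h, lintegral_const, measure_univ, mul_one]

end

/-- **The value of the integral.** -/
theorem II_val (hdet : S_DETq) (hact : S_ACTq) (hbas : S_BASq) (hprf : S_PRFq) {I α : Type}
    [Fintype I] [DecidableEq I] [Fintype α] (ω : α → ℕ) (a : I → ℕ)
    (s : ℝ) (hs : 0 < s) : ∀ (n : ℕ) (ρ E : Type) [Fintype ρ] [Fintype E] [DecidableEq E]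
      (Q : Qv I α ρ) (vt : E → I) (d : ρ → ℕ) (e : TQ Q ω d ≃ E) (μ : E → ℕ),
      Fintype.card E = n → (∀ τ, vt (e τ) = τ.1.2) → ProfQ vt e μ → (II Q vt p ω d e a s).toReal *
        ∏ x : E, (1 - (p : ℝ)⁻¹ ^ μ x * (p : ℝ) ^ (-((cE Q vt e a x : ℝ) * s))) =
      ∏ x : E, (1 - (p : ℝ)⁻¹ ^ μ x) := by
  classical
  intro n
  induction n with
  | zero =>
    intro ρ E _ _ _ Q vt d e μ hn he hμ
    have : IsEmpty E := Fintype.card_eq_zero_iff.1 hn
    rw [II_zero p ω d e a s hs]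
    simp
  | succ n ih =>
    intro ρ E _ _ _ Q vt d e μ hn he hμ
    have : Nonempty E := Fintype.card_pos_iff.1 (by omega)
    obtain ⟨j, e0, h0, h2, h3, h4, h5, e', he', h6, h7⟩ :=
      (hprf I α ρ E Q vt ω d e he).2 μ hμ inferInstance
    have hn' : Fintype.card (En e0) = n := by
      rw [Fintype.card_subtype_compl, Fintype.card_subtype_eq, hn, Nat.add_sub_cancel]
    have h8 := ih _ _ (Qn Q j) (vn vt e0) (dnq Q ω d j) e' (fun y => μ y.1) hn' he' h7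
    have h9 := J_eq p (ι := {y : E // vt y = Q.ν j}) ((NQ Q ω a (Q.ν j) (d j) : ℝ) * s)
      (by positivity)
    rw [step_int p hdet hact hbas ω d e he a j e0 h0 h2 h3 e' he' s hs, ENNReal.toReal_mul,
      prod_En e0, prod_En e0]
    have h10 : cE Q vt e a e0 = NQ Q ω a (Q.ν j) (d j) := by
      unfold cE
      rw [h0, h5]
    have h11 : ∀ y : En e0, cE Q vt e a y.1 = cE (Qn Q j) (vn vt e0) e' a y := by
      intro y
      unfold cE
      rw [h6, NQ_n]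
      rfl
    simp only [h11]
    rw [← h8, h10, h4, ← h9]
    ring

section

variable {I α ρ E : Type} [Fintype I] [DecidableEq I] [Fintype α] [Fintype ρ] [Fintype E]
  [DecidableEq E] {Q : Qv I α ρ} {vt : E → I}

/-- the zeta function at real points -/
theorem igusa_II (ω : α → ℕ) (d : ρ → ℕ) (e : TQ Q ω d ≃ E) (a : I → ℕ) (s : ℝ) :
    igusaZeta p (fpq Q vt ω d e a) (s : ℂ) = ((II Q vt p ω d e a s).toReal : ℂ) := by
  rw [hm_igusa]
  unfold II
  simp only [fq_aeval]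

/-- **The zeta function.** -/
theorem igusa_val (hdet : S_DETq) (hact : S_ACTq) (hbas : S_BASq) (hprf : S_PRFq) (ω : α → ℕ)
    (d : ρ → ℕ) (e : TQ Q ω d ≃ E) (he : ∀ τ, vt (e τ) = τ.1.2) (a : I → ℕ) (μ : E → ℕ)
    (hμ : ProfQ vt e μ) (s : ℝ) (hs : 0 < s) :
    igusaZeta p (fpq Q vt ω d e a) (s : ℂ) *
        ∏ x : E, (1 - ((p : ℂ) ^ μ x)⁻¹ * (p : ℂ) ^ (-((cE Q vt e a x : ℂ) * s))) =
      ∏ x : E, (1 - ((p : ℂ) ^ μ x)⁻¹) := by
  have h := congrArg (fun z : ℝ => (z : ℂ))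
    (II_val p hdet hact hbas hprf ω a s hs _ ρ E Q vt d e μ rfl he hμ)
  rw [igusa_II]
  simp only [Complex.ofReal_mul, Complex.ofReal_prod, Complex.ofReal_sub, Complex.ofReal_one,
    Complex.ofReal_pow, Complex.ofReal_inv, Complex.ofReal_natCast, inv_pow] at h
  rw [← h]
  congr 1
  refine Finset.prod_congr rfl fun k _ => ?_
  rw [Complex.ofReal_cpow (by positivity)]
  push_cast
  rfl

open Polynomial in
theorem igusa_ratK (hdet : S_DETq) (hact : S_ACTq) (hbas : S_BASq) (hprf : S_PRFq) (ω : α → ℕ)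
    (d : ρ → ℕ) (e : TQ Q ω d ≃ E) (he : ∀ τ, vt (e τ) = τ.1.2) (a : I → ℕ) (μ : E → ℕ)
    (hμ : ProfQ vt e μ) : ∃ P : ℂ[X], ∀ s : ℝ, 0 < s →
      (Rc p μ (cE Q vt e a)).eval (pw p s) * igusaZeta p (fpq Q vt ω d e a) s =
        P.eval (pw p s) := by
  have hp0 : (p : ℂ) ≠ 0 := by exact_mod_cast (Fact.out : p.Prime).ne_zero
  refine ⟨C (∏ x : E, ((p : ℂ) ^ μ x - 1)), fun s hs => ?_⟩
  have h0 := II_val p hdet hact hbas hprf ω a s hs _ ρ E Q vt d e μ rfl he hμ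
  rw [igusa_II, eval_C, pw_real]
  unfold Rc
  rw [eval_prod]
  have h2 : ∀ x : E, (C ((p ^ μ x : ℕ) : ℂ) - X ^ cE Q vt e a x : ℂ[X]).eval
      ((tr' p s : ℝ) : ℂ) = (p : ℂ) ^ μ x *
        ((1 - (p : ℝ)⁻¹ ^ μ x * (p : ℝ) ^ (-((cE Q vt e a x : ℝ) * s)) : ℝ) : ℂ) := by
    intro x
    have h8 : (p : ℝ) ^ (-((cE Q vt e a x : ℝ) * s)) = tr' p s ^ cE Q vt e a x :=
      tr'_nat p s (cE Q vt e a x)
    rw [h8, eval_sub, eval_C, eval_pow, eval_X]
    push_cast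
    rw [inv_pow]
    have h5 : (p : ℂ) ^ μ x ≠ 0 := pow_ne_zero _ hp0
    field_simp
  rw [Finset.prod_congr rfl fun k _ => h2 k, Finset.prod_mul_distrib, mul_assoc,
    mul_comm _ ((II Q vt p ω d e a s).toReal : ℂ),
    ← Complex.ofReal_prod, ← Complex.ofReal_mul, h0, Complex.ofReal_prod,
    ← Finset.prod_mul_distrib]
  refine Finset.prod_congr rfl fun x _ => ?_
  push_cast
  rw [inv_pow]
  have h5 : (p : ℂ) ^ μ x ≠ 0 := pow_ne_zero _ hp0
  field_simp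

/-- **The poles of the zeta function.** -/
theorem igusa_polesK (hdet : S_DETq) (hact : S_ACTq) (hbas : S_BASq) (hprf : S_PRFq) (ω : α → ℕ)
    (d : ρ → ℕ) (e : TQ Q ω d ≃ E) (he : ∀ τ, vt (e τ) = τ.1.2) (a : I → ℕ) (μ : E → ℕ)
    (hμ : ProfQ vt e μ) (g : ℂ → ℂ) (hg : MeromorphicOn g Set.univ)
    (h : ∀ s : ℂ, 0 < s.re → g s = igusaZeta p (fpq Q vt ω d e a) s) (s0 : ℂ) :
    ((-(Nat.card {x : E // 0 < cE Q vt e a x ∧
      s0.re = -((μ x : ℝ) / cE Q vt e a x)} : ℤ) : ℤ) : WithTop ℤ) ≤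
        meromorphicOrderAt g s0 := by
  obtain ⟨P, hP⟩ := igusa_ratK p hdet hact hbas hprf ω d e he a μ hμ
  have hq1 : 1 < p := (Fact.out : p.Prime).one_lt
  have hpos : ∀ x : E, 0 < μ x := fun x => (hμ.2.1 x).1
  have h1 := mero_bound p (Rc p μ (cE Q vt e a)) P
    (Rc_ne p hq1 _ _ hpos) g hg
    (fun s hs => by rw [h s (by simpa using hs)]; exact hP s hs) s0
  refine le_trans ?_ h1
  rw [WithTop.coe_le_coe, neg_le_neg_iff]
  have h2 := Rc_rm p hq1 μ (cE Q vt e a) hpos (pw p s0)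
  rw [pw_norm] at h2
  exact_mod_cast h2

end

end Pool.Agent.K1H70.KQ
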