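import Pool.Agent.K1H70.KR.Step
import Pool.Agent.K1H70.KR.Step3
import Pool.Agent.K1H70.KQ.Pad3

set_option autoImplicit false
set_option linter.unusedSectionVars false
set_option linter.unusedVariables false

/-! # Framed quivers: functional equations -/

namespace Pool.Agent.K1H70.KQ

open MvPolynomial
open Pool.Agent.K1H70.KR (W fis gen lin sl Eu Adm PiP fis_one norm_sl pair_sl)

variable {I α ρ E : Type} [Fintype I] [DecidableEq I] [Fintype α] [Fintype ρ] [Fintype E]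
  [DecidableEq E] {Q : Qv I α ρ} {vt : E → I}

variable (Q vt) in
/-- the polynomial, with complex coefficients -/
noncomputable def FC (ω : α → ℕ) (d : ρ → ℕ) (e : TQ Q ω d ≃ E) (a : I → ℕ) :
    MvPolynomial (VQ Q vt) ℂ := FQ Q vt ω d e a X

section slice

variable (j : ρ) (e0 : E) (h0 : vt e0 = Q.ν j) {k : ℕ} (s : {y : E // vt y = Q.ν j} ≃ Fin (k + 1))

/-- the variables of `v_j` -/
def vj (i : Fin (k + 1)) : VQ Q vt := ⟨((s.symm i).1, Sum.inr j), (s.symm i).2⟩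

theorem vj_inj : Function.Injective (vj j s) := by
  intro a b h
  have h1 := congrArg (fun u : VQ Q vt => u.1.1) h
  exact s.symm.injective (Subtype.ext h1)

theorem mem_vj (u : VQ Q vt) (h : u.1.2 = Sum.inr j) :
    vj j s (s ⟨u.1.1, okj j u h⟩) = u := by
  unfold vj
  apply Subtype.ext
  simp only [Equiv.symm_apply_apply]
  exact Prod.ext rfl h.symm

theorem ioq_out (u : VQ (Qn Q j) (vn vt e0)) : ioq Q vt j e0 h0 u ∉ Set.range (vj j s) := by
  rintro ⟨i, hi⟩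
  have h1 := congrArg (fun u : VQ Q vt => u.1.2) hi
  exact ioq_ne j e0 h0 u h1.symm

theorem sl_FC (hdet : S_DETq) (hs : s ⟨e0, h0⟩ = 0) (ω : α → ℕ) (d : ρ → ℕ) (e : TQ Q ω d ≃ E)
    (he : ∀ τ, vt (e τ) = τ.1.2) (a : I → ℕ) (hj : 0 < d j) (hmax : ∀ l, d l ≤ d j)
    (e' : TQ (Qn Q j) ω (dnq Q ω d j) ≃ En e0) (he' : ∀ τ, vn vt e0 (e' τ) = τ.1.2) :
    ∃ ε : ℂ, ε * ε = 1 ∧ sl (vj j s) (FC Q vt ω d e a) =
      ε • rename (ioq Q vt j e0 h0) (FC (Qn Q j) (vn vt e0) ω (dnq Q ω d j) e' a) := by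
  classical
  have hd := hdet I α ρ E Q vt ω d e he j e0 h0 hj hmax e' he'
  choose ε hε hstep using hd
  have h1 : ∀ (b : E) (h : vt b = Q.ν j), (fun u => sl (vj j s) (X u : MvPolynomial (VQ Q vt) ℂ))
      ⟨(b, Sum.inr j), h⟩ = if b = e0 then 1 else 0 := by
    intro b h
    have h2 : (⟨(b, Sum.inr j), h⟩ : VQ Q vt) = vj j s (s ⟨b, h⟩) := (mem_vj j s _ rfl).symm
    change sl (vj j s) (X (⟨(b, Sum.inr j), h⟩ : VQ Q vt)) = _
    rw [h2]
    by_cases hb : b = e0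
    · subst hb
      rw [if_pos rfl]
      have h3 : s ⟨b, h⟩ = 0 := hs
      rw [h3]
      exact K1H31.KR.sl_zero (vj j s)
    · rw [if_neg hb]
      have h3 : s ⟨b, h⟩ ≠ 0 := by
        intro h4
        rw [← hs] at h4
        exact hb (congrArg Subtype.val (s.injective h4))
      obtain ⟨i, hi⟩ := Fin.exists_succ_eq.2 h3
      rw [← hi]
      exact K1H31.KR.sl_succ (vj j s) (vj_inj j s) i
  have h2 : (fun u => (fun u => sl (vj j s) (X u : MvPolynomial (VQ Q vt) ℂ)) (ioq Q vt j e0 h0 u)) =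
      fun u => rename (ioq Q vt j e0 h0) (X u : MvPolynomial (VQ (Qn Q j) (vn vt e0)) ℂ) := by
    funext u
    rw [rename_X]
    exact K1H31.KR.sl_out (vj j s) (ioq_out j e0 h0 s u)
  have h3 : ∀ i, sl (vj j s) (dq Q vt ω d e i X) = (ε i : MvPolynomial (VQ Q vt) ℂ) *
      rename (ioq Q vt j e0 h0) (dq (Qn Q j) (vn vt e0) ω (dnq Q ω d j) e' i X) := by
    intro i
    have h4 := hstep i (MvPolynomial (VQ Q vt) ℂ) (fun u => sl (vj j s) (X u)) h1
    rw [h2] at h4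
    have h5 := dq_hom (sl (vj j s) : MvPolynomial (VQ Q vt) ℂ →ₐ[ℂ] _).toRingHom ω d e i X
    have h6 := dq_hom (rename (ioq Q vt j e0 h0) : MvPolynomial (VQ (Qn Q j) (vn vt e0)) ℂ →ₐ[ℂ]
      MvPolynomial (VQ Q vt) ℂ).toRingHom ω (dnq Q ω d j) e' i X
    refine h5.symm.trans (h4.trans ?_)
    congr 1
  refine ⟨∏ i, (ε i : ℂ) ^ a i, ?_, ?_⟩
  · rw [← Finset.prod_mul_distrib]
    refine Finset.prod_eq_one fun i _ => ?_
    rw [← mul_pow]
    rcases hε i with h | h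
    · rw [h]
      norm_num
    · rw [h]
      norm_num
  · unfold FC FQ
    rw [map_prod, map_prod, Algebra.smul_def, algebraMap_eq, map_prod, ← Finset.prod_mul_distrib]
    refine Finset.prod_congr rfl fun i _ => ?_
    rw [map_pow, map_pow, h3, mul_pow, map_pow, map_intCast]

theorem Mpq_eq (p q : E) (u w : VQ Q vt)
    [Decidable (u.1.1 = q ∧ w.1.1 = p ∧ u.1.2 = w.1.2)]
    [Decidable (u.1.1 = w.1.1 ∧ ∃ b, u.1.2 = Sum.inl (b, p) ∧ w.1.2 = Sum.inl (b, q))] :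
    Mpq p q u w = (if u.1.1 = q ∧ w.1.1 = p ∧ u.1.2 = w.1.2 then 1 else 0) -
      if u.1.1 = w.1.1 ∧ ∃ b, u.1.2 = Sum.inl (b, p) ∧ w.1.2 = Sum.inl (b, q) then 1 else 0 := by
  unfold Mpq
  congr

theorem Mpq_tr (p q : E) : (fun u w : VQ Q vt => Mpq p q w u) = Mpq q p := by
  classical
  funext u w
  rw [Mpq_eq, Mpq_eq]
  congr 1
  · refine if_congr ?_ rfl rfl
    constructor
    · rintro ⟨h1, h2, h3⟩
      exact ⟨h2, h1, h3.symm⟩
    · rintro ⟨h1, h2, h3⟩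
      exact ⟨h2, h1, h3.symm⟩
  · refine if_congr ?_ rfl rfl
    constructor
    · rintro ⟨h1, b, h2, h3⟩
      exact ⟨h1.symm, b, h3, h2⟩
    · rintro ⟨h1, b, h2, h3⟩
      exact ⟨h1.symm, b, h3, h2⟩

theorem vj_fst (b : Fin (k + 1)) : (vj (Q := Q) (vt := vt) j s b).1.1 = (s.symm b).1 := rfl

theorem vj_snd (b : Fin (k + 1)) : (vj (Q := Q) (vt := vt) j s b).1.2 = Sum.inr j := rfl

theorem adm (hs : s ⟨e0, h0⟩ = 0) : Adm (vj j s) (fun i : Fin k =>
    (Mpq (s.symm i.succ).1 e0 : VQ Q vt → _ → ℝ)) := by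
  classical
  have h00 : (s.symm 0).1 = e0 := by
    rw [← hs, Equiv.symm_apply_apply]
  constructor
  · intro i u b
    have h1 : ¬ (u.1.1 = (vj (Q := Q) (vt := vt) j s b).1.1 ∧ ∃ b' : α,
        u.1.2 = Sum.inl (b', (s.symm i.succ).1) ∧
        (vj (Q := Q) (vt := vt) j s b).1.2 = Sum.inl (b', e0)) := by
      rintro ⟨-, b', -, h⟩
      rw [vj_snd] at h
      cases h
    have h2 : (u.1.1 = e0 ∧ (vj (Q := Q) (vt := vt) j s b).1.1 = (s.symm i.succ).1 ∧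
        u.1.2 = (vj (Q := Q) (vt := vt) j s b).1.2) ↔ (u = vj j s 0 ∧ b = i.succ) := by
      rw [vj_fst, vj_snd]
      constructor
      · rintro ⟨h1, h2, h3⟩
        refine ⟨Subtype.ext (Prod.ext ?_ h3), s.symm.injective (Subtype.ext h2)⟩
        rw [h1]
        exact h00.symm
      · rintro ⟨h1, h2⟩
        rw [h1, h2]
        exact ⟨h00, rfl, rfl⟩
    change Mpq (s.symm i.succ).1 e0 u (vj j s b) = _
    rw [Mpq_eq, if_neg h1, sub_zero]
    by_cases h3 : u = vj j s 0 ∧ b = i.succ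
    · rw [if_pos h3, if_pos (h2.2 h3)]
    · rw [if_neg h3, if_neg fun h => h3 (h2.1 h)]
  · intro i b w
    have h1 : ¬ ((vj (Q := Q) (vt := vt) j s b).1.1 = w.1.1 ∧ ∃ b' : α,
        (vj (Q := Q) (vt := vt) j s b).1.2 = Sum.inl (b', (s.symm i.succ).1) ∧
        w.1.2 = Sum.inl (b', e0)) := by
      rintro ⟨-, b', h, -⟩
      rw [vj_snd] at h
      cases h
    have h2 : ((vj (Q := Q) (vt := vt) j s b).1.1 = e0 ∧ w.1.1 = (s.symm i.succ).1 ∧
        (vj (Q := Q) (vt := vt) j s b).1.2 = w.1.2) ↔ (b = 0 ∧ w = vj j s i.succ) := by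
      rw [vj_fst, vj_snd]
      constructor
      · rintro ⟨h1, h2, h3⟩
        refine ⟨s.symm.injective (Subtype.ext (h1.trans h00.symm)), Subtype.ext (Prod.ext h2 h3.symm)⟩
      · rintro ⟨h1, h2⟩
        rw [h2, h1]
        exact ⟨h00, rfl, rfl⟩
    change Mpq (s.symm i.succ).1 e0 (vj j s b) w = _
    rw [Mpq_eq, if_neg h1, sub_zero]
    by_cases h3 : b = 0 ∧ w = vj j s i.succ
    · rw [if_pos h3, if_pos (h2.2 h3)]
    · rw [if_neg h3, if_neg fun h => h3 (h2.1 h)]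

end slice

theorem sum_vj {M : Type} [AddCommMonoid M] (j : ρ) {k : ℕ}
    (s : {y : E // vt y = Q.ν j} ≃ Fin (k + 1)) (f : VQ Q vt → M) :
    ∑ i, f (vj j s i) = ∑ y : {y : E // vt y = Q.ν j}, f ⟨(y.1, Sum.inr j), y.2⟩ := by
  have hterm : ∀ y : {y : E // vt y = Q.ν j},
      (vj j s (s y) : VQ Q vt) = ⟨(y.1, Sum.inr j), y.2⟩ := by
    intro y
    apply Subtype.ext
    change ((s.symm (s y)).1, Sum.inr j) = (y.1, Sum.inr j)
    rw [Equiv.symm_apply_apply]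
  refine (Fintype.sum_equiv s _ _ fun y => ?_).symm
  rw [hterm]

theorem Eu_vj (hinv : S_INVq) (ω : α → ℕ) (d : ρ → ℕ) (e : TQ Q ω d ≃ E)
    (he : ∀ τ, vt (e τ) = τ.1.2) (a : I → ℕ) (j : ρ) {k : ℕ}
    (s : {y : E // vt y = Q.ν j} ≃ Fin (k + 1)) :
    Eu (vj j s) (FC Q vt ω d e a) = (NQ Q ω a (Q.ν j) (d j) : ℂ) • FC Q vt ω d e a := by
  have hi2 := (hinv I α ρ E Q vt ω d e he a).2 j
  rw [← sum_vj j s fun u : VQ Q vt => (gen (Sum.inl u) * gen (Sum.inr u) :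
    Module.End ℂ (MvPolynomial (VQ Q vt) ℂ))] at hi2
  exact hi2

theorem fc_step (hdet : S_DETq) (hinv : S_INVq) (ω : α → ℕ) (d : ρ → ℕ) (e : TQ Q ω d ≃ E)
    (he : ∀ τ, vt (e τ) = τ.1.2) (a : I → ℕ) (j : ρ) (e0 : E) (h0 : vt e0 = Q.ν j)
    (hj : 0 < d j) (hmax : ∀ l, d l ≤ d j) (e' : TQ (Qn Q j) ω (dnq Q ω d j) ≃ En e0)
    (he' : ∀ τ, vn vt e0 (e' τ) = τ.1.2) (k : ℕ)
    (hk : Fintype.card {y : E // vt y = Q.ν j} = k + 1)
    (h : PiP (FC (Qn Q j) (vn vt e0) ω (dnq Q ω d j) e' a)) :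
    PiP (FC Q vt ω d e a) ∧ ∀ n : ℕ, fis (FC Q vt ω d e a ^ n) (FC Q vt ω d e a ^ n) =
        (((NQ Q ω a (Q.ν j) (d j) * n + k).factorial : ℂ) / k.factorial) *
          fis (FC (Qn Q j) (vn vt e0) ω (dnq Q ω d j) e' a ^ n)
            (FC (Qn Q j) (vn vt e0) ω (dnq Q ω d j) e' a ^ n) := by
  classical
  obtain ⟨s, hs⟩ : ∃ s : {y : E // vt y = Q.ν j} ≃ Fin (k + 1), s ⟨e0, h0⟩ = 0 := by
    let s0 := Fintype.equivFinOfCardEq hk
    refine ⟨s0.trans (Equiv.swap (s0 ⟨e0, h0⟩) 0), ?_⟩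
    rw [Equiv.trans_apply, Equiv.swap_apply_left]
  obtain ⟨ε, hε, hsl⟩ := sl_FC j e0 h0 s hdet hs ω d e he a hj hmax e' he'
  set F := FC Q vt ω d e a with hF
  set F' := FC (Qn Q j) (vn vt e0) ω (dnq Q ω d j) e' a with hF'
  obtain ⟨hi1, hi2⟩ := hinv I α ρ E Q vt ω d e he a
  have hE : Eu (vj j s) F = (NQ Q ω a (Q.ν j) (d j) : ℂ) • F := Eu_vj hinv ω d e he a j s
  have hne : ∀ i : Fin k, (s.symm i.succ).1 ≠ e0 := by
    intro i h1
    have h2 : s.symm i.succ = s.symm 0 := by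
      apply Subtype.ext
      rw [h1, ← hs, Equiv.symm_apply_apply]
    exact Fin.succ_ne_zero i (s.symm.injective h2)
  have hvt : ∀ i : Fin k, vt (s.symm i.succ).1 = vt e0 := fun i =>
    (s.symm i.succ).2.trans h0.symm
  have h1 : ∀ i : Fin k, lin (Mpq (s.symm i.succ).1 e0) F = 0 := fun i =>
    hi1 _ e0 (hne i) (hvt i)
  have h2 : ∀ i : Fin k, lin (fun u w => Mpq (s.symm i.succ).1 e0 w u) F = 0 := fun i => by
    rw [Mpq_tr]
    exact hi1 e0 _ (hne i).symm (hvt i).symm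
  have hio := ioq_inj (Q := Q) (vt := vt) j e0 h0
  have hn : ∀ n : ℕ, fis (F ^ n) (F ^ n) =
      (((NQ Q ω a (Q.ν j) (d j) * n + k).factorial : ℂ) / k.factorial) *
      fis (F' ^ n) (F' ^ n) := by
    intro n
    rw [norm_sl (vj j s) _ (vj_inj j s) (adm j e0 h0 s hs) (NQ Q ω a (Q.ν j) (d j)) F hE h1 h2 n,
      hsl, smul_pow, ← map_pow (rename (ioq Q vt j e0 h0)), map_smul, map_smul,
      LinearMap.smul_apply, K1H24.KR.fis_rename _ hio, smul_eq_mul, smul_eq_mul,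
      ← mul_assoc (ε ^ n), ← mul_pow, hε, one_pow, one_mul]
  refine ⟨?_, hn⟩
  intro P hP
  obtain ⟨K, Qi, hQi, hpair⟩ := pair_sl (vj j s) _ (vj_inj j s) (adm j e0 h0 s hs)
    (NQ Q ω a (Q.ν j) (d j)) F hE h1 h2 P hP
  have h3 : ∀ i, ∃ q : Polynomial ℂ, ∀ n : ℕ, fis (rename (ioq Q vt j e0 h0) (F' ^ (n + 1)))
      (Qi i (rename (ioq Q vt j e0 h0) (F' ^ n))) =
        q.eval (n : ℂ) * fis (F' ^ (n + 1)) (F' ^ (n + 1)) := by
    intro i
    obtain ⟨Q', hQ', h4⟩ := K1H24.KR.t_RED _ _ (ioq Q vt j e0 h0) hio (Qi i) (hQi i)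
    obtain ⟨q, hq⟩ := h Q' hQ'
    exact ⟨q, fun n => by rw [h4, hq]⟩
  choose q hq using h3
  refine ⟨∑ i ∈ Finset.range K, Polynomial.X ^ i * (Polynomial.C ε * q i), fun n => ?_⟩
  rw [hpair, hn, Polynomial.eval_finsetSum, hsl, Finset.mul_sum, Finset.sum_mul]
  refine Finset.sum_congr rfl fun i _ => ?_
  rw [smul_pow, smul_pow, ← map_pow (rename (ioq Q vt j e0 h0)),
    ← map_pow (rename (ioq Q vt j e0 h0)), map_smul, map_smul,
    map_smul, LinearMap.smul_apply, hq, Polynomial.eval_mul, Polynomial.eval_mul,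
    Polynomial.eval_pow, Polynomial.eval_X, Polynomial.eval_C, smul_eq_mul, smul_eq_mul]
  have h5 : ε ^ n * ε ^ n = 1 := by rw [← mul_pow, hε, one_pow]
  rw [pow_succ]
  linear_combination ((((NQ Q ω a (Q.ν j) (d j) * (n + 1) + k).factorial : ℂ) / k.factorial) *
    (n : ℂ) ^ i * ε * ((q i).eval (n : ℂ) * fis (F' ^ (n + 1)) (F' ^ (n + 1)))) * h5

/-- **The pairings with the powers of the polynomial.** -/
theorem fc_all (hdet : S_DETq) (hinv : S_INVq) (hprf : S_PRFq) {I α : Type} [Fintype I]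
    [DecidableEq I] [Fintype α] (ω : α → ℕ) (a : I → ℕ) :
    ∀ (N : ℕ) (ρ E : Type) [Fintype ρ] [Fintype E] [DecidableEq E] (Q : Qv I α ρ) (vt : E → I)
      (d : ρ → ℕ) (e : TQ Q ω d ≃ E) (μ : E → ℕ), Fintype.card E = N →
      (∀ τ, vt (e τ) = τ.1.2) → ProfQ vt e μ → PiP (FC Q vt ω d e a) ∧
      ∀ n : ℕ, fis (FC Q vt ω d e a ^ n) (FC Q vt ω d e a ^ n) =
        ∏ x : E, (((cE Q vt e a x * n + (μ x - 1)).factorial : ℂ) / (μ x - 1).factorial) := by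
  classical
  intro N
  induction N with
  | zero =>
    intro ρ E _ _ _ Q vt d e μ hn he hμ
    have : IsEmpty E := Fintype.card_eq_zero_iff.1 hn
    have h1 : FC Q vt ω d e a = 1 := by
      unfold FC FQ
      refine Finset.prod_eq_one fun i _ => ?_
      unfold dq
      rw [Matrix.det_isEmpty, one_pow]
    rw [h1]
    constructor
    · intro P hP
      refine ⟨Polynomial.C (fis 1 (P 1)), fun n => ?_⟩
      rw [one_pow, one_pow, Polynomial.eval_C, fis_one, mul_one]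
    · intro n
      rw [one_pow, fis_one]
      simp
  | succ N ih =>
    intro ρ E _ _ _ Q vt d e μ hn he hμ
    have : Nonempty E := Fintype.card_pos_iff.1 (by omega)
    obtain ⟨j, e0, h0, h2, h3, h4, h5, e', he', h6, h7⟩ :=
      (hprf I α ρ E Q vt ω d e he).2 μ hμ inferInstance
    have hn' : Fintype.card (En e0) = N := by
      rw [Fintype.card_subtype_compl, Fintype.card_subtype_eq, hn, Nat.add_sub_cancel]
    obtain ⟨h8, h9⟩ := ih _ _ (Qn Q j) (vn vt e0) (dnq Q ω d j) e' (fun y => μ y.1) hn' he' h7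
    have hk : Fintype.card {y : E // vt y = Q.ν j} = (μ e0 - 1) + 1 := by
      have := (hμ.2.1 e0).1
      omega
    obtain ⟨h12, h13⟩ := fc_step hdet hinv ω d e he a j e0 h0 h2 h3 e' he' _ hk h8
    refine ⟨h12, fun n => ?_⟩
    have h10 : cE Q vt e a e0 = NQ Q ω a (Q.ν j) (d j) := by
      unfold cE
      rw [h0, h5]
    have h11 : ∀ y : En e0, cE (Qn Q j) (vn vt e0) e' a y = cE Q vt e a y.1 := by
      intro y
      unfold cE
      rw [h6, NQ_n]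
      rfl
    rw [h13, h9, prod_En e0, h10]
    congr 1
    refine Finset.prod_congr rfl fun y _ => ?_
    rw [h11]

end Pool.Agent.K1H70.KQ
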