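import Pool.Agent.K1H70.KQ.Step2
import Pool.Agent.K1H70.KG.Step3

set_option autoImplicit false
set_option linter.unusedSectionVars false
set_option linter.unusedVariables false

/-! # Framed quivers: the Bernstein-Sato polynomial -/

namespace Pool.Agent.K1H70.KQ

open MvPolynomial
open Pool.Agent.K1H70.KR (W fis gen PiP weyl_mem)
open Pool.Agent.K1H70.KG (sb eval_sb fis_ext mem_weyl)

section poly

variable {E : Type} [Fintype E]

/-- the factor -/
noncomputable def Bf (μ c : E → ℕ) : Polynomial ℂ :=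
  ∏ x : E, ∏ j ∈ Finset.range (c x), (Polynomial.C (c x : ℂ) * Polynomial.X +
    Polynomial.C ((μ x + j : ℕ) : ℂ))

/-- the monic polynomial `∏_x ∏_{j < c_x} (s + (μ_x + j) / c_x)` -/
noncomputable def bS (μ c : E → ℕ) : Polynomial ℂ :=
  ∏ x : E, ∏ j ∈ Finset.range (c x), (Polynomial.X +
    Polynomial.C (((μ x + j : ℕ) : ℂ) / (c x : ℂ)))

theorem Bf_fac (μ c : E → ℕ) (hμ : ∀ x, 0 < μ x) (s : ℕ) :
    (∏ x : E, (((c x * (s + 1) + (μ x - 1)).factorial : ℂ) / (μ x - 1).factorial)) =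
      (Bf μ c).eval (s : ℂ) *
      ∏ x : E, (((c x * s + (μ x - 1)).factorial : ℂ) / (μ x - 1).factorial) := by
  rw [Bf, Polynomial.eval_prod, ← Finset.prod_mul_distrib]
  refine Finset.prod_congr rfl fun x _ => ?_
  rw [Polynomial.eval_prod]
  have h6 : (c x * (s + 1) + (μ x - 1)).factorial =
      (c x * s + (μ x - 1)).factorial * ∏ j ∈ Finset.range (c x), (c x * s + (μ x + j)) := by
    have h7 := Nat.factorial_mul_ascFactorial (c x * s + (μ x - 1)) (c x)
    rw [Nat.ascFactorial_eq_prod_range] at h7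
    rw [show c x * (s + 1) + (μ x - 1) = c x * s + (μ x - 1) + c x by ring, ← h7]
    congr 1
    refine Finset.prod_congr rfl fun j _ => ?_
    have := hμ x
    omega
  rw [h6]
  push_cast
  have h8 : ∀ j ∈ Finset.range (c x), (Polynomial.C (c x : ℂ) * Polynomial.X +
      Polynomial.C (((μ x : ℕ) : ℂ) + (j : ℂ))).eval (s : ℂ) = (c x : ℂ) * s + ((μ x : ℂ) + j) := by
    intro j _
    rw [Polynomial.eval_add, Polynomial.eval_mul, Polynomial.eval_C, Polynomial.eval_X,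
      Polynomial.eval_C]
  rw [Finset.prod_congr rfl h8]
  ring

theorem bS_monic (μ c : E → ℕ) : (bS μ c).Monic :=
  Polynomial.monic_prod_of_monic _ _ fun x _ =>
    Polynomial.monic_prod_of_monic _ _ fun j _ => Polynomial.monic_X_add_C _

theorem Bf_eq (μ c : E → ℕ) : ∃ κ : ℂ, κ ≠ 0 ∧ Bf μ c = Polynomial.C κ * bS μ c := by
  refine ⟨∏ x : E, ∏ _j ∈ Finset.range (c x), (c x : ℂ), ?_, ?_⟩
  · refine Finset.prod_ne_zero_iff.2 fun x _ => Finset.prod_ne_zero_iff.2 fun j hj => ?_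
    have := Finset.mem_range.1 hj
    exact_mod_cast (by omega : c x ≠ 0)
  · unfold Bf bS
    rw [map_prod, ← Finset.prod_mul_distrib]
    refine Finset.prod_congr rfl fun x _ => ?_
    rw [map_prod, ← Finset.prod_mul_distrib]
    refine Finset.prod_congr rfl fun j hj => ?_
    have := Finset.mem_range.1 hj
    rw [mul_add, ← Polynomial.C_mul, mul_div_cancel₀]
    exact_mod_cast (by omega : c x ≠ 0)

/-- **Divisibility**, in terms of the pairings. -/
theorem dvd_of_pairings {σ : Type} (μ c : E → ℕ) (hμ : ∀ x, 0 < μ x) (F : MvPolynomial σ ℂ)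
    (h1 : PiP F) (h2 : ∀ n : ℕ, fis (F ^ n) (F ^ n) =
        ∏ x : E, (((c x * n + (μ x - 1)).factorial : ℂ) / (μ x - 1).factorial))
    (b : Polynomial ℂ) (hb : Pool.Agent.H628R4.TP.IsBFunction F b) : Bf μ c ∣ b := by
  obtain ⟨P, hP⟩ := hb
  have h3 : ∀ i : ℕ, ∃ q : Polynomial ℂ, ∀ s : ℕ,
      fis (F ^ s) ((P i : Module.End ℂ (MvPolynomial _ ℂ)) (F ^ (s + 1))) =
        q.eval (s : ℂ) * fis (F ^ (s + 1)) (F ^ (s + 1)) := by
    intro i
    obtain ⟨Q', hQ', h4⟩ := K1H24.KR.W_adj (weyl_mem _ (P i).2)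
    obtain ⟨q, hq⟩ := h1 Q' hQ'
    exact ⟨q, fun s => by rw [K1H24.KR.fis_comm, h4, hq]⟩
  choose q hq using h3
  have h4 : ∀ s : ℕ, b.eval (s : ℂ) * fis (F ^ s) (F ^ s) =
      (∑ i ∈ P.support, Polynomial.X ^ i * q i).eval (s : ℂ) * fis (F ^ (s + 1)) (F ^ (s + 1)) := by
    intro s
    have h5 := congrArg (fis (F ^ s)) (hP s)
    rw [← smul_eq_C_mul, map_smul, smul_eq_mul, Finsupp.sum, map_sum] at h5
    rw [h5, Polynomial.eval_finsetSum, Finset.sum_mul]
    refine Finset.sum_congr rfl fun i _ => ?_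
    rw [map_smul, hq, smul_eq_mul, Polynomial.eval_mul, Polynomial.eval_pow, Polynomial.eval_X,
      mul_assoc]
  have h5 : ∀ s : ℕ, fis (F ^ (s + 1)) (F ^ (s + 1)) = (Bf μ c).eval (s : ℂ) * fis (F ^ s) (F ^ s) := by
    intro s
    rw [h2, h2]
    exact Bf_fac μ c hμ s
  have h6 : ∀ s : ℕ, fis (F ^ s) (F ^ s) ≠ 0 := by
    intro s
    rw [h2]
    refine Finset.prod_ne_zero_iff.2 fun k _ => ?_
    exact div_ne_zero (by exact_mod_cast Nat.factorial_ne_zero _)
      (by exact_mod_cast Nat.factorial_ne_zero _)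
  refine ⟨∑ i ∈ P.support, Polynomial.X ^ i * q i, ?_⟩
  refine Polynomial.eq_of_infinite_eval_eq _ _ ?_
  refine Set.Infinite.mono (s := Set.range fun s : ℕ => (s : ℂ)) ?_
    (Set.infinite_range_of_injective Nat.cast_injective)
  rintro _ ⟨s, rfl⟩
  have h7 := h4 s
  rw [h5] at h7
  refine mul_right_cancel₀ (h6 s) ?_
  rw [Polynomial.eval_mul]
  linear_combination h7

/-- the multiplicities -/
theorem count_le_of_dvd (μ c : E → ℕ) (b : Polynomial ℂ) (hb0 : b ≠ 0)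
    (hb : Bf μ c ∣ b) (z : ℝ) :
    Nat.card {x : E // 0 < c x ∧ z = -((μ x : ℝ) / c x)} ≤ b.rootMultiplicity (z : ℂ) := by
  classical
  rw [Polynomial.le_rootMultiplicity_iff hb0]
  refine dvd_trans ?_ hb
  rw [Nat.card_eq_fintype_card, Fintype.card_subtype]
  set S := Finset.univ.filter fun x : E => 0 < c x ∧ z = -((μ x : ℝ) / c x) with hS
  rw [← Finset.prod_const]
  refine dvd_trans (Finset.prod_dvd_prod_of_dvd _ (fun x => ∏ j ∈ Finset.range (c x),
    (Polynomial.C (c x : ℂ) * Polynomial.X + Polynomial.C ((μ x + j : ℕ) : ℂ))) ?_)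
    (Finset.prod_dvd_prod_of_subset _ _ _ (Finset.subset_univ _))
  intro x hx
  rw [hS, Finset.mem_filter] at hx
  refine dvd_trans ?_ (Finset.dvd_prod_of_mem _ (Finset.mem_range.2 hx.2.1))
  rw [Polynomial.dvd_iff_isRoot, Polynomial.IsRoot, Polynomial.eval_add, Polynomial.eval_mul,
    Polynomial.eval_C, Polynomial.eval_X, Polynomial.eval_C, hx.2.2]
  have h1 : (c x : ℂ) ≠ 0 := by exact_mod_cast hx.2.1.ne'
  push_cast
  field_simp
  ring

end poly

section

variable {I α ρ E : Type} [Fintype I] [DecidableEq I] [Fintype α] [Fintype ρ] [Fintype E]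
  [DecidableEq E] {Q : Qv I α ρ} {vt : E → I}

open Classical in
/-- the matrix of the linear map `act`, for all entries -/
noncomputable def LU (G Gi : Matrix E E ℂ) (u : α → ℂ) (z : ρ → ℂ) : U α ρ E → U α ρ E → ℂ
  | (a, Sum.inl (b, c)), (a', Sum.inl (b', c')) => if b' = b then u b * (G a a' * Gi c' c) else 0
  | (a, Sum.inr l), (a', Sum.inr l') => if l' = l then z l * G a a' else 0
  | (_, Sum.inl _), (_, Sum.inr _) => 0
  | (_, Sum.inr _), (_, Sum.inl _) => 0

theorem LU_tr (G Gi : Matrix E E ℂ) (u : α → ℂ) (z : ρ → ℂ) (v w : U α ρ E) :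
    LU G Gi u z w v = LU G.transpose Gi.transpose u z v w := by
  classical
  obtain ⟨a, ⟨b, c⟩ | l⟩ := v <;> obtain ⟨a', ⟨b', c'⟩ | l'⟩ := w
  · simp only [LU, Matrix.transpose_apply]
    by_cases h : b = b'
    · subst h
      rw [if_pos rfl]
    · rw [if_neg h, if_neg (Ne.symm h)]
  · rfl
  · rfl
  · simp only [LU, Matrix.transpose_apply]
    by_cases h : l = l'
    · subst h
      rw [if_pos rfl]
    · rw [if_neg h, if_neg (Ne.symm h)]

/-- the matrix of the linear map `act` -/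
noncomputable def LL (G Gi : Matrix E E ℂ) (u : α → ℂ) (z : ρ → ℂ) (v w : VQ Q vt) : ℂ :=
  LU G Gi u z v.1 w.1

theorem sum_ext (f : U α ρ E → ℂ) (x : VQ Q vt → ℂ) :
    ∑ w : VQ Q vt, f w.1 * x w = ∑ u : U α ρ E, f u * ext x u := by
  rw [← Fintype.sum_subtype_add_sum_subtype (ok Q vt) fun u => f u * ext x u]
  have h1 : ∑ i : {u // ¬ ok Q vt u}, f i.1 * ext x i.1 = 0 := by
    refine Finset.sum_eq_zero fun i _ => ?_
    rw [ext_neg x i.1 i.2, mul_zero]
  rw [h1, add_zero]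
  refine Finset.sum_congr rfl fun i _ => ?_
  rw [ext_pos x i.1 i.2]

theorem LL_act (G Gi : Matrix E E ℂ) (u : α → ℂ) (z : ρ → ℂ)
    (x : VQ Q vt → ℂ) (v : VQ Q vt) : ∑ w, LL G Gi u z v w * x w = act G Gi u z x v := by
  classical
  refine (sum_ext (fun w => LU G Gi u z v.1 w) x).trans ?_
  obtain ⟨⟨a, ⟨b, c⟩ | l⟩, hv⟩ := v
  · rw [Fintype.sum_prod_type]
    simp only [Fintype.sum_sum_type, Fintype.sum_prod_type, LU, zero_mul, Finset.sum_const_zero,
      add_zero]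
    change _ = u b * (G * mA (ext x) b * Gi) a c
    have h1 : ∀ a' : E, ∑ b' : α, ∑ c' : E,
        (if b' = b then u b * (G a a' * Gi c' c) else 0) * ext x (a', Sum.inl (b', c')) =
        ∑ c' : E, u b * (G a a' * Gi c' c) * ext x (a', Sum.inl (b, c')) := by
      intro a'
      rw [Finset.sum_eq_single b]
      · simp
      · intro b' _ hb
        refine Finset.sum_eq_zero fun c' _ => ?_
        rw [if_neg hb, zero_mul]
      · intro h
        exact absurd (Finset.mem_univ b) h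
    rw [Finset.sum_congr rfl fun a' _ => h1 a', Matrix.mul_apply, Finset.mul_sum, Finset.sum_comm]
    refine Finset.sum_congr rfl fun c' _ => ?_
    rw [Matrix.mul_apply, Finset.sum_mul, Finset.mul_sum]
    refine Finset.sum_congr rfl fun a' _ => ?_
    change _ = u b * (G a a' * ext x (a', Sum.inl (b, c')) * Gi c' c)
    ring
  · rw [Fintype.sum_prod_type]
    simp only [Fintype.sum_sum_type, LU, zero_mul, Finset.sum_const_zero,
      zero_add]
    change _ = z l * ∑ a', G a a' * ext x (a', Sum.inr l)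
    rw [Finset.mul_sum]
    refine Finset.sum_congr rfl fun a' _ => ?_
    rw [Finset.sum_eq_single l]
    · rw [if_pos rfl, mul_assoc]
    · intro l' _ hl
      rw [if_neg hl, zero_mul]
    · intro h
      exact absurd (Finset.mem_univ l) h

theorem eval_FC (ω : α → ℕ) (d : ρ → ℕ) (e : TQ Q ω d ≃ E) (a : I → ℕ) (x : VQ Q vt → ℂ) :
    eval x (FC Q vt ω d e a) = FQ Q vt ω d e a x := by
  have h := FQ_hom (eval x) ω d e a X
  unfold FC
  rw [← h]
  congr 1
  funext u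
  exact eval_X u

theorem sb_FC (hact : S_ACTq) (ω : α → ℕ) (d : ρ → ℕ) (e : TQ Q ω d ≃ E)
    (he : ∀ τ, vt (e τ) = τ.1.2) (a : I → ℕ) (G Gi : Matrix E E ℂ) (u : α → ℂ) (z : ρ → ℂ)
    (hG : Gi * G = 1) (hB : Blk vt G) (hBi : Blk vt Gi) :
    sb (LL G Gi u z) (FC Q vt ω d e a) = C (chq Q vt ω d e a G u z) * FC Q vt ω d e a := by
  refine MvPolynomial.funext fun x => ?_
  rw [eval_sb, map_mul, eval_C, eval_FC, eval_FC]
  have h1 : (fun v => ∑ w, LL G Gi u z v w * x w) = act G Gi u z x := by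
    funext v
    exact LL_act G Gi u z x v
  rw [h1]
  exact (hact ℂ I α ρ E Q vt ω d e he a).1 G Gi u z x hG hB hBi

theorem dG_tr (G : Matrix E E ℂ) (i : I) : dG vt G.transpose i = dG vt G i := by
  unfold dG
  rw [← Matrix.det_transpose]
  rfl

theorem chq_tr (ω : α → ℕ) (d : ρ → ℕ) (e : TQ Q ω d ≃ E) (a : I → ℕ) (G : Matrix E E ℂ)
    (u : α → ℂ) (z : ρ → ℂ) : chq Q vt ω d e a G.transpose u z = chq Q vt ω d e a G u z := by
  unfold chq
  simp only [dG_tr]

theorem chq_ne (ω : α → ℕ) (d : ρ → ℕ) (e : TQ Q ω d ≃ E) (a : I → ℕ) (G Gi : Matrix E E ℂ)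
    (u : α → ℂ) (z : ρ → ℂ) (hG : Gi * G = 1) (hB : Blk vt G) (hBi : Blk vt Gi)
    (hu : ∀ b, u b ≠ 0) (hz : ∀ l, z l ≠ 0) : chq Q vt ω d e a G u z ≠ 0 := by
  unfold chq
  refine mul_ne_zero (Finset.prod_ne_zero_iff.2 fun i _ => pow_ne_zero _ ?_)
    (Finset.prod_ne_zero_iff.2 fun y _ => pow_ne_zero _ (mul_ne_zero ?_ (hz _)))
  · have h1 : (Matrix.of fun a c : {y : E // vt y = i} => Gi a.1 c.1) *
        (Matrix.of fun a c : {y : E // vt y = i} => G a.1 c.1) = 1 := by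
      ext a' c'
      rw [Matrix.mul_apply]
      have h2 := congrFun (congrFun hG a'.1) c'.1
      rw [Matrix.mul_apply] at h2
      rw [← Fintype.sum_subtype_add_sum_subtype (fun y => vt y = i) fun y => Gi a'.1 y * G y c'.1] at h2
      have h3 : ∑ y : {y // ¬ vt y = i}, Gi a'.1 y.1 * G y.1 c'.1 = 0 := by
        refine Finset.sum_eq_zero fun y _ => ?_
        rw [hBi a'.1 y.1 (by rw [a'.2]; exact Ne.symm y.2), zero_mul]
      rw [h3, add_zero] at h2
      refine h2.trans ?_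
      rw [Matrix.one_apply, Matrix.one_apply]
      by_cases h4 : a' = c'
      · rw [if_pos h4, if_pos (congrArg Subtype.val h4)]
      · rw [if_neg h4, if_neg fun h => h4 (Subtype.ext h)]
    intro h0
    have h5 := congrArg Matrix.det h1
    rw [Matrix.det_mul, Matrix.det_one] at h5
    unfold dG at h0
    rw [h0, mul_zero] at h5
    exact zero_ne_one h5
  · refine List.prod_ne_zero ?_
    intro h0
    rw [List.mem_map] at h0
    obtain ⟨b, -, hb⟩ := h0
    exact hu b hb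

/-- **The adjoint of the multiplication by the polynomial lowers the powers.** -/
theorem exists_D (hact : S_ACTq) (hsub : K1H70.KG.S_SUB) (hunq : S_UNQq) (ω : α → ℕ) (d : ρ → ℕ)
    (e : TQ Q ω d ≃ E) (he : ∀ τ, vt (e τ) = τ.1.2) (a : I → ℕ) :
    ∃ D ∈ W (VQ Q vt), (∀ g h, fis (FC Q vt ω d e a * g) h = fis g (D h)) ∧
      ∀ n : ℕ, ∃ c : ℂ, D (FC Q vt ω d e a ^ (n + 1)) = C c * FC Q vt ω d e a ^ n := by
  classical
  obtain ⟨D, hD, hadj⟩ := K1H24.KR.W_adj (K1H24.KR.mulLeft_mem (FC Q vt ω d e a))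
  have hadj' : ∀ g h, fis (FC Q vt ω d e a * g) h = fis g (D h) := hadj
  refine ⟨D, hD, hadj', fun n => ?_⟩
  refine hunq I α ρ E Q vt ω d e he a n (D (FC Q vt ω d e a ^ (n + 1))) ?_
  set F := FC Q vt ω d e a with hF
  intro G Gi u z x hG hB hBi hu hz
  set χ := chq Q vt ω d e a G u z with hχ
  have hχ0 : χ ≠ 0 := chq_ne ω d e a G Gi u z hG hB hBi hu hz
  have h1 : sb (LL G Gi u z) F = C χ * F := sb_FC hact ω d e he a G Gi u z hG hB hBi
  have hGT : Gi.transpose * G.transpose = 1 := by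
    rw [← Matrix.transpose_mul, mul_eq_one_comm.1 hG, Matrix.transpose_one]
  have hBT : Blk vt G.transpose := fun a c h => hB c a (Ne.symm h)
  have hBiT : Blk vt Gi.transpose := fun a c h => hBi c a (Ne.symm h)
  have hLT : (fun v w : VQ Q vt => LL G Gi u z w v) = LL G.transpose Gi.transpose u z := by
    funext v w
    exact LU_tr G Gi u z v.1 w.1
  have h2 : sb (fun v w : VQ Q vt => LL G Gi u z w v) F = C χ * F := by
    rw [hLT, sb_FC hact ω d e he a _ _ u z hGT hBT hBiT, chq_tr]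
  have h3 : sb (LL G Gi u z) (D (F ^ (n + 1))) = C (χ ^ n) * D (F ^ (n + 1)) := by
    refine fis_ext _ _ fun g => ?_
    have h4 : fis (sb (LL G Gi u z) (D (F ^ (n + 1)))) g =
        fis (D (F ^ (n + 1))) (sb (fun v w : VQ Q vt => LL G Gi u z w v) g) := hsub _ _ _ _
    have h5 : F * sb (fun v w : VQ Q vt => LL G Gi u z w v) g =
        C χ⁻¹ * sb (fun v w : VQ Q vt => LL G Gi u z w v) (F * g) := by
      rw [map_mul, h2, ← mul_assoc, ← mul_assoc, ← C_mul, inv_mul_cancel₀ hχ0, C_1, one_mul]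
    have h6 : fis (sb (fun v w : VQ Q vt => LL G Gi u z w v) (F * g)) (F ^ (n + 1)) =
        fis (F * g) (sb (LL G Gi u z) (F ^ (n + 1))) :=
      hsub _ (fun v w : VQ Q vt => LL G Gi u z w v) _ _
    rw [h4, K1H24.KR.fis_comm, ← hadj', h5, ← smul_eq_C_mul, map_smul, LinearMap.smul_apply, h6,
      map_pow, h1, mul_pow, ← C_pow, ← smul_eq_C_mul, ← smul_eq_C_mul, map_smul, map_smul,
      LinearMap.smul_apply, hadj', K1H24.KR.fis_comm g, smul_eq_mul, smul_eq_mul, smul_eq_mul,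
      pow_succ]
    field_simp
  have h4 : eval (act G Gi u z x) (D (F ^ (n + 1))) = eval x (sb (LL G Gi u z) (D (F ^ (n + 1)))) := by
    rw [eval_sb]
    congr 2
    funext v
    exact (LL_act G Gi u z x v).symm
  rw [h4, h3, map_mul, eval_C]

/-- **The functional equation.** -/
theorem isB_Bf (hdet : S_DETq) (hinv : S_INVq) (hact : S_ACTq) (hsub : K1H70.KG.S_SUB)
    (hunq : S_UNQq) (hprf : S_PRFq) (ω : α → ℕ) (d : ρ → ℕ) (e : TQ Q ω d ≃ E)
    (he : ∀ τ, vt (e τ) = τ.1.2) (a : I → ℕ) (μ : E → ℕ) (hμ : ProfQ vt e μ) (κ : ℂ) :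
    Pool.Agent.H628R4.TP.IsBFunction (FC Q vt ω d e a)
      (Polynomial.C κ * Bf μ (cE Q vt e a)) := by
  obtain ⟨D, hD, hadj, hlow⟩ := exists_D hact hsub hunq ω d e he a
  obtain ⟨-, hN⟩ := fc_all hdet hinv hprf ω a _ ρ E Q vt d e μ rfl he hμ
  refine ⟨Finsupp.single 0 ⟨κ • D, Subalgebra.smul_mem _ (mem_weyl D hD) κ⟩, fun s => ?_⟩
  rw [Finsupp.sum_single_index]
  · obtain ⟨c0, hc0⟩ := hlow s
    have h1 : fis (FC Q vt ω d e a ^ (s + 1)) (FC Q vt ω d e a ^ (s + 1)) =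
        (Bf μ (cE Q vt e a)).eval (s : ℂ) * fis (FC Q vt ω d e a ^ s) (FC Q vt ω d e a ^ s) := by
      rw [hN, hN]
      exact Bf_fac μ _ (fun x => (hμ.2.1 x).1) s
    have h2 : fis (FC Q vt ω d e a ^ s) (FC Q vt ω d e a ^ s) ≠ 0 := by
      rw [hN]
      refine Finset.prod_ne_zero_iff.2 fun k _ => ?_
      exact div_ne_zero (by exact_mod_cast Nat.factorial_ne_zero _)
        (by exact_mod_cast Nat.factorial_ne_zero _)
    have h3 : c0 = (Bf μ (cE Q vt e a)).eval (s : ℂ) := by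
      have h4 := hadj (FC Q vt ω d e a ^ s) (FC Q vt ω d e a ^ (s + 1))
      rw [hc0, ← smul_eq_C_mul, map_smul, smul_eq_mul, ← pow_succ', h1] at h4
      exact (mul_right_cancel₀ h2 h4).symm
    change _ = ((s : ℂ) ^ 0) • (κ • D) (FC Q vt ω d e a ^ (s + 1))
    rw [pow_zero, one_smul, LinearMap.smul_apply, hc0, h3, Polynomial.eval_mul, Polynomial.eval_C,
      C_mul, mul_assoc]
    exact (smul_eq_C_mul _ κ).symm
  · change ((s : ℂ) ^ 0) • (0 : Module.End ℂ (MvPolynomial _ ℂ)) _ = 0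
    rw [LinearMap.zero_apply, smul_zero]

/-- **The Bernstein-Sato polynomial.** -/
theorem isBS (hdet : S_DETq) (hinv : S_INVq) (hact : S_ACTq) (hsub : K1H70.KG.S_SUB)
    (hunq : S_UNQq) (hprf : S_PRFq) (ω : α → ℕ) (d : ρ → ℕ) (e : TQ Q ω d ≃ E)
    (he : ∀ τ, vt (e τ) = τ.1.2) (a : I → ℕ) (μ : E → ℕ) (hμ : ProfQ vt e μ) :
    Pool.Agent.H628R4.TP.IsBernsteinSatoOf (FC Q vt ω d e a) (bS μ (cE Q vt e a)) := by
  obtain ⟨h1, h2⟩ := fc_all hdet hinv hprf ω a _ ρ E Q vt d e μ rfl he hμ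
  obtain ⟨κ, hκ, hB⟩ := Bf_eq μ (cE Q vt e a)
  refine ⟨bS_monic μ _, ?_, fun b' hb' hb'B => ?_⟩
  · have h3 := isB_Bf hdet hinv hact hsub hunq hprf ω d e he a μ hμ κ⁻¹
    rwa [hB, ← mul_assoc, ← Polynomial.C_mul, inv_mul_cancel₀ hκ, Polynomial.C_1, one_mul] at h3
  · have h3 : bS μ (cE Q vt e a) ∣ b' := by
      refine dvd_trans ?_ (dvd_of_pairings μ _ (fun x => (hμ.2.1 x).1) (FC Q vt ω d e a) h1 h2
        b' hb'B)
      rw [hB]
      exact Dvd.intro_left _ rfl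
    exact Polynomial.natDegree_le_of_dvd h3 hb'.ne_zero

end

end Pool.Agent.K1H70.KQ
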